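import Pool.Agent.H19.TR.LineUpper
import Pool.Agent.H24.TR.Lines3
import Pool.Agent.H31.TR.LinesN

/-!
MP_b12e0e_ag (helper19): cubes of a fixed order.
-/

set_option autoImplicit false

open Set Function Module Pool.Agent.H93.TR

open scoped Topology

namespace Pool.Agent.H19.TR

/-- padding with zeros -/
theorem cube_mono {n q q' R : ℕ} (hq : q ≤ q')
    (h : ∀ T : Ten (fun _ : Fin n => Fin q'), T ∈ Sums (fun _ : Fin n => Fin q') R)
    (T : Ten (fun _ : Fin n => Fin q)) : T ∈ Sums (fun _ : Fin n => Fin q) R := by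
  classical
  obtain ⟨v, hv⟩ := h fun y => if h : ∀ i, (y i).val < q then T (fun i => ⟨(y i).val, h i⟩) else 0
  refine ⟨fun j i c => v j i (Fin.castLE hq c), ?_⟩
  funext x
  have h1 := congrFun hv fun i => Fin.castLE hq (x i)
  have h2 : ∀ i, ((fun i => Fin.castLE hq (x i)) i).val < q := fun i => (x i).2
  simp only [dif_pos h2, Finset.sum_apply] at h1
  rw [Finset.sum_apply]
  exact h1

theorem cube_fixed (n : ℕ) (hn : 3 ≤ n) (ε : ℝ) (hε : 0 < ε) : ∃ Q : ℕ, ∀ q : ℕ, Q ≤ q →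
    ∃ R : ℕ, (R : ℝ) ≤ (1 + ε) * ((q : ℝ) ^ n / (n * ((q : ℝ) - 1) + 1)) ∧
      ∀ T : Ten (fun _ : Fin n => Fin q), T ∈ Sums (fun _ : Fin n => Fin q) R := by
  obtain ⟨a, m, ha, hm, hL⟩ :=
    Pool.Agent.H31.TR.lines_all_of Pool.Agent.H24.TR.lines_three n hn
  obtain ⟨N, rfl⟩ : ∃ N, n = N + 1 := ⟨n - 1, by omega⟩
  rw [Nat.add_sub_cancel] at hm hL
  have hN : 2 ≤ N := by omega
  -- choice of `w`
  obtain ⟨w, hw⟩ := exists_nat_gt (4 * (N + 2) / ε + 1)
  set X : ℕ := 2 ^ w with hX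
  have hwX : (w : ℝ) ≤ X := by
    have : w ≤ 2 ^ w := (Nat.lt_two_pow_self).le
    rw [hX]
    exact_mod_cast this
  have hX0 : 4 * ((N : ℝ) + 2) / ε < (X : ℝ) - 1 := by linarith
  have hpos1 : 0 < 4 * ((N : ℝ) + 2) / ε := by positivity
  have hX1 : (1 : ℝ) < X := by linarith
  have hXn : 2 ≤ X := by
    have : (1 : ℕ) < X := by exact_mod_cast hX1
    omega
  have hXε : 4 * ((N : ℝ) + 2) < ε * ((X : ℝ) - 1) := by
    rw [div_lt_iff₀ hε] at hX0
    linarith
  set b : ℕ := X ^ 4 with hb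
  have hb2 : 2 ^ (3 * w + w) = b := by
    rw [hb, hX, ← pow_mul]
    congr 1
    ring
  have hv : 2 ^ (3 * w) = X ^ 3 := by
    rw [hX, ← pow_mul, mul_comm]
  have hbpos : 0 < b := by positivity
  set g : ℕ := X ^ 3 * (X - 1) with hg
  have hgpos : 0 < g := by
    have : 0 < X - 1 := by omega
    positivity
  -- large `q`
  have hlim : Filter.Tendsto (fun q : ℕ => (1 + ε / 4) * (1 + (a * b : ℝ) / q) ^ N +
      ((N + 1) * (b : ℝ) ^ (N + 1)) / q) Filter.atTop (𝓝 ((1 + ε / 4) * (1 + 0) ^ N + 0)) := by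
    refine Filter.Tendsto.add (Filter.Tendsto.const_mul _ (Filter.Tendsto.pow
      (Filter.Tendsto.const_add _ ?_) _)) ?_
    · exact tendsto_const_div_atTop_nhds_zero_nat _
    · exact tendsto_const_div_atTop_nhds_zero_nat _
  have hev : ∀ᶠ q : ℕ in Filter.atTop, (1 + ε / 4) * (1 + (a * b : ℝ) / q) ^ N +
      ((N + 1) * (b : ℝ) ^ (N + 1)) / q < 1 + ε := by
    refine hlim.eventually (gt_mem_nhds ?_)
    rw [add_zero, add_zero, one_pow, mul_one]
    linarith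
  obtain ⟨Q, hQ⟩ := Filter.eventually_atTop.1 hev
  refine ⟨Q + 1, fun q hq => ?_⟩
  have hest := hQ q (by omega)
  have hq1 : 1 ≤ q := by omega
  have hqR : (1 : ℝ) ≤ q := by exact_mod_cast hq1
  have hqpos : (0 : ℝ) < q := by linarith
  -- the size
  set s : ℕ := q / (a * b) + 1 with hs
  have hab : 0 < a * b := Nat.mul_pos ha hbpos
  have hsq : q ≤ a * s * b := by
    have h1 := Nat.lt_div_mul_add (a := q) hab
    have h2 : a * s * b = q / (a * b) * (a * b) + a * b := by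
      rw [hs]
      ring
    omega
  have hsq' : a * s * b ≤ q + a * b := by
    have h1 := Nat.div_mul_le_self q (a * b)
    have h2 : a * s * b = q / (a * b) * (a * b) + a * b := by
      rw [hs]
      ring
    omega
  set ms : ℕ := m * s ^ N with hms
  set r : ℕ := ms / g + 1 with hr
  have hr1 : ms ≤ r * (2 ^ (3 * w) * (2 ^ w - 1)) := by
    rw [hv, ← hX, ← hg, hr]
    have h1 := Nat.lt_div_mul_add (a := ms) hgpos
    rw [add_mul, one_mul]
    exact h1.le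
  have hup := line_upper (n := N + 1) (a := a * s) (m := ms) (v := 3 * w) (w := w) (r := r)
    (by omega) (hL s (Nat.succ_pos _)) hr1
  rw [hb2, Nat.add_sub_cancel] at hup
  refine ⟨_, ?_, cube_mono hsq hup⟩
  -- the estimate
  have hexp : 2 ^ (3 * w + w + (N + 1) * w) = X ^ (N + 5) := by
    rw [hX, ← pow_mul]
    congr 1
    ring
  rw [hexp]
  have hrR : (r : ℝ) ≤ (ms : ℝ) / g + 1 := by
    rw [hr]
    push_cast
    have := @Nat.cast_div_le ℝ _ _ _ ms g
    linarith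
  have hmR : ((N : ℝ) + 1) * m = (a : ℝ) ^ N := by
    have : (((N + 1) * m : ℕ) : ℝ) = ((a ^ N : ℕ) : ℝ) := by rw [hm]
    push_cast at this
    exact this
  have hasR : ((a : ℝ) * s) ^ N = (N + 1) * ms := by
    rw [mul_pow, ← hmR, hms]
    push_cast
    ring
  have hgR : (g : ℝ) = X ^ 3 * (X - 1) := by
    rw [hg]
    push_cast [Nat.cast_sub (show 1 ≤ X by omega)]
    ring
  have hbR : (b : ℝ) = X ^ 4 := by
    rw [hb]
    push_cast
    ring
  set P : ℝ := ((a : ℝ) * s * b) ^ N with hP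
  have hPms : P = (N + 1) * ms * (b : ℝ) ^ N := by
    rw [hP, mul_pow, hasR]
  have hX0' : (0 : ℝ) < X := by linarith
  have hX1' : (0 : ℝ) < (X : ℝ) - 1 := by linarith
  have hN1 : (0 : ℝ) < (N : ℝ) + 1 := by positivity
  -- first term
  have hfirst : (r : ℝ) * (b : ℝ) ^ (N + 1) ≤ P / (N + 1) * (X / (X - 1)) + (b : ℝ) ^ (N + 1) := by
    have h1 : (r : ℝ) * (b : ℝ) ^ (N + 1) ≤ ((ms : ℝ) / g + 1) * (b : ℝ) ^ (N + 1) :=
      mul_le_mul_of_nonneg_right hrR (by positivity)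
    have h2 : ((ms : ℝ) / g + 1) * (b : ℝ) ^ (N + 1) =
        P / (N + 1) * (X / (X - 1)) + (b : ℝ) ^ (N + 1) := by
      have hgR0 : (g : ℝ) ≠ 0 := by rw [hgR]; positivity
      have hbg : (b : ℝ) / g = X / (X - 1) := by
        rw [div_eq_div_iff hgR0 hX1'.ne', hbR, hgR]
        ring
      have hPN : P / (N + 1) = ms * (b : ℝ) ^ N := by
        rw [hPms, div_eq_iff hN1.ne']
        ring
      rw [add_mul, one_mul, ← hbg, hPN, pow_succ]
      ring
    rw [← h2]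
    exact h1
  have hsecond : ((a : ℝ) * s) ^ N * (X : ℝ) ^ (N + 5) ≤ P / (N + 1) * ((N + 1) / X) := by
    have h1 : P / (N + 1) * ((N + 1) / X) = ((a : ℝ) * s) ^ N * ((b : ℝ) ^ N / X) := by
      rw [hP, mul_pow]
      field_simp
    rw [h1]
    refine mul_le_mul_of_nonneg_left ?_ (by positivity)
    rw [le_div_iff₀ hX0', hbR, ← pow_mul, ← pow_succ]
    exact pow_le_pow_right₀ hX1.le (by omega)
  have hPn : P ≤ ((q : ℝ) + a * b) ^ N := by
    rw [hP]
    refine pow_le_pow_left₀ (by positivity) ?_ _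
    have : ((a * s * b : ℕ) : ℝ) ≤ ((q + a * b : ℕ) : ℝ) := by exact_mod_cast hsq'
    push_cast at this
    exact this
  have hcoef : (X : ℝ) / (X - 1) + (N + 1) / X ≤ 1 + ε / 4 := by
    have h1 : (X : ℝ) / (X - 1) = 1 + 1 / (X - 1) := by
      rw [div_eq_iff hX1'.ne', add_mul, div_mul_cancel₀ _ hX1'.ne']
      ring
    have h2 : ((N : ℝ) + 1) / X ≤ (N + 1) / (X - 1) :=
      div_le_div_of_nonneg_left hN1.le hX1' (by linarith)
    have h3 : 1 / ((X : ℝ) - 1) + (N + 1) / (X - 1) ≤ ε / 4 := by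
      rw [← add_div, div_le_iff₀ hX1']
      linarith
    rw [h1]
    linarith
  have hlow : (q : ℝ) ^ N / (N + 1) ≤ (q : ℝ) ^ (N + 1) / (((N + 1 : ℕ) : ℝ) * ((q : ℝ) - 1) + 1) := by
    have hden : (0 : ℝ) < ((N + 1 : ℕ) : ℝ) * ((q : ℝ) - 1) + 1 := by
      have : (0 : ℝ) ≤ (q : ℝ) - 1 := by linarith
      positivity
    rw [div_le_div_iff₀ hN1 hden, pow_succ]
    push_cast
    have h1 : ((N : ℝ) + 1) * (q - 1) + 1 ≤ q * (N + 1) := by nlinarith
    calc (q : ℝ) ^ N * (((N : ℝ) + 1) * (q - 1) + 1) ≤ q ^ N * (q * (N + 1)) :=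
          mul_le_mul_of_nonneg_left h1 (by positivity)
      _ = q ^ N * q * (N + 1) := by ring
  have hP0 : 0 ≤ P / (N + 1) := by positivity
  have hgood : (1 + ε / 4) * ((q : ℝ) + a * b) ^ N / (N + 1) + (b : ℝ) ^ (N + 1) ≤
      (1 + ε) * ((q : ℝ) ^ N / (N + 1)) := by
    have h1 : ((q : ℝ) + a * b) ^ N = (1 + (a * b : ℝ) / q) ^ N * q ^ N := by
      rw [← mul_pow]
      congr 1
      field_simp
    have h2 : (b : ℝ) ^ (N + 1) ≤ ((N + 1) * (b : ℝ) ^ (N + 1)) / q * (q ^ N / (N + 1)) := by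
      have h3 : ((N + 1) * (b : ℝ) ^ (N + 1)) / q * (q ^ N / (N + 1)) =
          (b : ℝ) ^ (N + 1) * (q ^ N / q) := by
        field_simp
      rw [h3]
      refine le_mul_of_one_le_right (by positivity) ?_
      rw [le_div_iff₀ hqpos, one_mul]
      calc (q : ℝ) = q ^ 1 := (pow_one _).symm
        _ ≤ q ^ N := pow_le_pow_right₀ hqR (by omega)
    have h4 : (1 + ε / 4) * ((q : ℝ) + a * b) ^ N / (N + 1) =
        (1 + ε / 4) * (1 + (a * b : ℝ) / q) ^ N * (q ^ N / (N + 1)) := by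
      rw [h1]
      ring
    rw [h4]
    have h5 : (0 : ℝ) ≤ (q : ℝ) ^ N / (N + 1) := by positivity
    calc (1 + ε / 4) * (1 + (a * b : ℝ) / q) ^ N * (q ^ N / (N + 1)) + (b : ℝ) ^ (N + 1) ≤
          (1 + ε / 4) * (1 + (a * b : ℝ) / q) ^ N * (q ^ N / (N + 1)) +
          ((N + 1) * (b : ℝ) ^ (N + 1)) / q * (q ^ N / (N + 1)) := by linarith
      _ = ((1 + ε / 4) * (1 + (a * b : ℝ) / q) ^ N + ((N + 1) * (b : ℝ) ^ (N + 1)) / q) *
          (q ^ N / (N + 1)) := by ring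
      _ ≤ (1 + ε) * (q ^ N / (N + 1)) := mul_le_mul_of_nonneg_right hest.le h5
  have hfin : (r : ℝ) * (b : ℝ) ^ (N + 1) + ((a : ℝ) * s) ^ N * (X : ℝ) ^ (N + 5) ≤
      (1 + ε) * ((q : ℝ) ^ N / (N + 1)) := by
    have h1 : P / (N + 1) * (X / (X - 1)) + P / (N + 1) * ((N + 1) / X) ≤
        P / (N + 1) * (1 + ε / 4) := by
      rw [← mul_add]
      exact mul_le_mul_of_nonneg_left hcoef hP0
    have h2 : P / (N + 1) * (1 + ε / 4) ≤ (1 + ε / 4) * ((q : ℝ) + a * b) ^ N / (N + 1) := by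
      rw [div_mul_eq_mul_div, mul_comm P]
      exact div_le_div_of_nonneg_right (mul_le_mul_of_nonneg_left hPn (by linarith)) hN1.le
    linarith
  have hcast : ((r * b ^ (N + 1) + (a * s) ^ N * X ^ (N + 5) : ℕ) : ℝ) =
      (r : ℝ) * (b : ℝ) ^ (N + 1) + ((a : ℝ) * s) ^ N * (X : ℝ) ^ (N + 5) := by
    push_cast
    ring
  rw [hcast]
  exact hfin.trans (mul_le_mul_of_nonneg_left hlow (by linarith))

end Pool.Agent.H19.TR
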