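import Pool.Agent.H19.TR.LinUpper

/-!
MP_b12e0e_ag (helper19): labels for any number of factors, and the upper bound for cubes.
-/

set_option autoImplicit false

open Set Function Module Pool.Agent.H93.TR

namespace Pool.Agent.H19.TR

/-- change of the index sets -/
theorem all_Sums_congr {ι : Type} [Fintype ι] {α β : ι → Type} (e : ∀ i, α i ≃ β i) {r : ℕ}
    (h : ∀ T : Ten α, T ∈ Sums α r) (T : Ten β) : T ∈ Sums β r := by
  obtain ⟨v, hv⟩ := h fun x => T fun i => e i (x i)
  refine ⟨fun j i b => v j i ((e i).symm b), ?_⟩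
  funext y
  have h1 := congrFun hv fun i => (e i).symm (y i)
  simp only [Equiv.apply_symm_apply, Finset.sum_apply] at h1
  rw [h1, Finset.sum_apply]
  rfl

section
variable {ι : Type} [Fintype ι] [DecidableEq ι] {V M : Type} [AddCommGroup V] [AddCommGroup M]

/-- the label maps -/
def ph (i : ι) (k : V × M) : V × M × (ι → M) := (k.1, k.2, Pi.single i k.2)

theorem ph_add (i : ι) (k d : V × M) :
    (ph i (k + d) : V × M × (ι → M)) = ph i k + ph i d := by
  unfold ph
  refine Prod.ext rfl (Prod.ext rfl ?_)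
  show (Pi.single i (k.2 + d.2) : ι → M) = Pi.single i k.2 + Pi.single i d.2
  rw [Pi.single_add]

theorem sum_ph_update (x : ι → V × M) (i : ι) (d : V × M) :
    ∑ l, (ph l (update x i (x i + d) l) : V × M × (ι → M)) = ∑ l, ph l (x l) + ph i d := by
  rw [← Finset.add_sum_erase _ _ (Finset.mem_univ i),
    ← Finset.add_sum_erase Finset.univ (fun l => (ph l (x l) : V × M × (ι → M)))
      (Finset.mem_univ i), update_self, ph_add]
  have h1 : ∑ l ∈ Finset.univ.erase i, (ph l (update x i (x i + d) l) : V × M × (ι → M)) =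
      ∑ l ∈ Finset.univ.erase i, ph l (x l) :=
    Finset.sum_congr rfl fun l hl => by rw [update_of_ne (Finset.ne_of_mem_erase hl)]
  rw [h1]
  abel

/-- the labels of the neighbours used are pairwise different -/
theorem ph_inj (x : ι → V × M) :
    Injective fun s : Σ _ : ι, {d : V × M // d.2 ≠ 0} =>
      ∑ l, (ph l (update x s.1 (x s.1 + s.2.1) l) : V × M × (ι → M)) := by
  rintro ⟨i, ⟨d, hd⟩⟩ ⟨j, ⟨d', hd'⟩⟩ h
  simp only [sum_ph_update] at h
  have h1 : (ph i d : V × M × (ι → M)) = ph j d' := add_left_cancel h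
  unfold ph at h1
  have h2 : d.1 = d'.1 := congrArg (fun t : V × M × (ι → M) => t.1) h1
  have h3 : d.2 = d'.2 := congrArg (fun t : V × M × (ι → M) => t.2.1) h1
  have h4 : (Pi.single i d.2 : ι → M) = Pi.single j d'.2 :=
    congrArg (fun t : V × M × (ι → M) => t.2.2) h1
  have h5 : d = d' := Prod.ext h2 h3
  have h6 : i = j := by
    by_contra hij
    have h7 := congrFun h4 i
    rw [Pi.single_eq_same, Pi.single_eq_of_ne hij] at h7
    exact hd h7
  subst h5
  subst h6
  rfl

end

/-- Row (C): the upper bound for cubes. -/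
theorem line_upper {n a m v w r : ℕ} (hn : 1 ≤ n)
    (hL : Lines (fun _ : Fin n => Fin a) (fun _ => Fin m))
    (hr : m ≤ r * (2 ^ v * (2 ^ w - 1))) (T : Ten (fun _ : Fin n => Fin (a * 2 ^ (v + w)))) :
    T ∈ Sums (fun _ : Fin n => Fin (a * 2 ^ (v + w)))
      (r * (2 ^ (v + w)) ^ n + a ^ (n - 1) * 2 ^ (v + w + n * w)) := by
  classical
  have : Nonempty (Fin n) := ⟨⟨0, hn⟩⟩
  let V : Type := Fin v → ZMod 2
  let M : Type := Fin w → ZMod 2
  have hV : Fintype.card V = 2 ^ v := by
    simp [V, ZMod.card]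
  have hM : Fintype.card M = 2 ^ w := by
    simp [M, ZMod.card]
  have hK : Fintype.card (V × M) = 2 ^ (v + w) := by
    rw [Fintype.card_prod, hV, hM, pow_add]
  have hA : Fintype.card (V × M × (Fin n → M)) = 2 ^ (v + w + n * w) := by
    have h0 : Fintype.card (Fin n → M) = (2 ^ w) ^ n := by
      rw [Fintype.card_fun (α := Fin n) (β := M), hM, Fintype.card_fin]
    rw [Fintype.card_prod, Fintype.card_prod, h0, hV, hM, pow_add,
      pow_add, ← pow_mul, mul_comm w n, mul_assoc]
  have hN : Fintype.card {d : V × M // d.2 ≠ 0} = 2 ^ v * (2 ^ w - 1) := by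
    have h1 : Fintype.card {d : V × M // d.2 ≠ 0} = Fintype.card (V × {m : M // m ≠ 0}) :=
      Fintype.card_congr
        { toFun := fun d => (d.1.1, ⟨d.1.2, d.2⟩)
          invFun := fun d => ⟨(d.1, d.2.1), d.2.2⟩
          left_inv := fun _ => rfl
          right_inv := fun _ => rfl }
    rw [h1, Fintype.card_prod, hV, Fintype.card_subtype_compl, Fintype.card_subtype_eq, hM]
  have h2 : ∀ g : V × M × (Fin n → M), g + g = 0 := by
    intro g
    have hz : ∀ a : ZMod 2, a + a = 0 := by decide
    refine Prod.ext ?_ (Prod.ext ?_ ?_)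
    · funext i
      exact hz _
    · funext i
      exact hz _
    · funext i
      funext j
      exact hz _
  have hρ : ∀ S : Ten (fun _ : Fin n => Fin a), S ∈ Sums (fun _ : Fin n => Fin a)
      (a ^ (n - 1)) := by
    intro S
    have h3 := mem_Sums_triv (E := fun _ : Fin n => Fin a) ⟨0, hn⟩ S
    have h4 : Fintype.card ((i : {i : Fin n // i ≠ ⟨0, hn⟩}) → Fin a) = a ^ (n - 1) := by
      rw [Fintype.card_fun, Fintype.card_fin, Fintype.card_subtype_compl, Fintype.card_subtype_eq,
        Fintype.card_fin]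
    rwa [h4] at h3
  have hmain := upper_lines (E := fun _ : Fin n => Fin a) (K := fun _ => V × M) h2
    (fun i => ph i) (r := r) hρ hL (fun x => by
      refine ⟨fun _ => {d : V × M // d.2 ≠ 0}, fun i d => x i + d.1, ph_inj x, ?_⟩
      have h5 : Nonempty (Fin m ↪ {d : V × M // d.2 ≠ 0} × Fin r) := by
        refine Function.Embedding.nonempty_of_card_le ?_
        rw [Fintype.card_prod, hN, Fintype.card_fin, Fintype.card_fin, mul_comm _ r]
        exact hr
      obtain ⟨e⟩ := h5
      exact ⟨fun _ => e, fun _ => e.injective⟩)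
  have hcard : r * Fintype.card ((i : Fin n) → V × M) +
      Fintype.card (V × M × (Fin n → M)) * a ^ (n - 1) =
      r * (2 ^ (v + w)) ^ n + a ^ (n - 1) * 2 ^ (v + w + n * w) := by
    rw [hA, Fintype.card_fun, hK, Fintype.card_fin, mul_comm (2 ^ (v + w + n * w))]
  rw [hcard] at hmain
  have e : Fin a × (V × M) ≃ Fin (a * 2 ^ (v + w)) :=
    Fintype.equivFinOfCardEq (by rw [Fintype.card_prod, Fintype.card_fin, hK])
  exact all_Sums_congr (fun _ => e) hmain T

end Pool.Agent.H19.TR
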