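import Pool.Agent.H93.TR.Many
import Pool.Agent.H19.TR.LineUpper

/-!
MP_b12e0e_ag (helper19): cubes of all orders, uniform form.
-/

set_option autoImplicit false

open Set Function Module Pool.Agent.H93.TR

open scoped Topology

namespace Pool.Agent.H19.TR

/-- for large `n` all cubes satisfy the hypothesis of `many` -/
theorem exists_large (k : ℕ) : ∃ n₀ : ℕ, ∀ n, n₀ ≤ n → ∀ q, 2 ≤ q →
    (1 + n * (q - 1)) ^ (4 * k) ≤ q ^ n := by
  have h1 := tendsto_pow_const_div_const_pow_of_one_lt (4 * k) (r := (2 : ℝ)) one_lt_two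
  have h2 : ∀ᶠ n : ℕ in Filter.atTop, (n : ℝ) ^ (4 * k) / 2 ^ n < (2 ^ (4 * k))⁻¹ :=
    h1.eventually (gt_mem_nhds (by positivity))
  obtain ⟨n₁, hn₁⟩ := Filter.eventually_atTop.1 h2
  refine ⟨n₁ + 4 * k + 1, fun n hn q hq => ?_⟩
  have h3 := hn₁ n (by omega)
  have h4 : (n : ℝ) ^ (4 * k) * 2 ^ (4 * k) < 2 ^ n := by
    rw [div_lt_iff₀ (by positivity), inv_mul_eq_div, lt_div_iff₀ (by positivity)] at h3
    exact h3
  have h5 : n ^ (4 * k) * 2 ^ (4 * k) ≤ 2 ^ n := by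
    have : (n ^ (4 * k) * 2 ^ (4 * k) : ℕ) < 2 ^ n := by exact_mod_cast h4
    exact this.le
  have h6 : 1 + n * (q - 1) ≤ n * q := by
    obtain ⟨t, rfl⟩ : ∃ t, q = t + 1 := ⟨q - 1, by omega⟩
    rw [Nat.add_sub_cancel]
    nlinarith
  have h7 : n ^ (4 * k) ≤ 2 ^ (n - 4 * k) := by
    have h8 : 2 ^ n = 2 ^ (n - 4 * k) * 2 ^ (4 * k) := by
      rw [← pow_add]
      congr 1
      omega
    rw [h8] at h5
    exact Nat.le_of_mul_le_mul_right h5 (by positivity)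
  calc (1 + n * (q - 1)) ^ (4 * k) ≤ (n * q) ^ (4 * k) := Nat.pow_le_pow_left h6 _
    _ = n ^ (4 * k) * q ^ (4 * k) := mul_pow _ _ _
    _ ≤ 2 ^ (n - 4 * k) * q ^ (4 * k) := Nat.mul_le_mul_right _ h7
    _ ≤ q ^ (n - 4 * k) * q ^ (4 * k) :=
        Nat.mul_le_mul_right _ (Nat.pow_le_pow_left hq _)
    _ = q ^ n := by
        rw [← pow_add]
        congr 1
        omega

/-- the uniform form -/
theorem cube_unif
    (hfix : ∀ n : ℕ, 3 ≤ n → ∀ ε : ℝ, 0 < ε → ∃ Q : ℕ, ∀ q : ℕ, Q ≤ q → ∃ R : ℕ,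
      (R : ℝ) ≤ (1 + ε) * ((q : ℝ) ^ n / (n * ((q : ℝ) - 1) + 1)) ∧
      ∀ T : Ten (fun _ : Fin n => Fin q), T ∈ Sums (fun _ : Fin n => Fin q) R)
    (ε : ℝ) (hε : 0 < ε) :
    ∃ N₀ : ℕ, ∀ n q : ℕ, 3 ≤ n → 2 ≤ q → N₀ ≤ q ^ n → ∃ R : ℕ,
      (R : ℝ) ≤ (1 + ε) * ((q : ℝ) ^ n / (n * ((q : ℝ) - 1) + 1)) ∧
      ∀ T : Ten (fun _ : Fin n => Fin q), T ∈ Sums (fun _ : Fin n => Fin q) R := by
  -- `k` with `2 / k ^ 2 ≤ ε`
  obtain ⟨k₀, hk₀⟩ := exists_nat_gt (2 / ε)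
  set k : ℕ := k₀ + 4 with hk
  have hkε : 2 / (k : ℝ) ^ 2 ≤ ε := by
    have h1 : (2 / ε) < k := by
      have : (k : ℝ) = k₀ + 4 := by rw [hk]; push_cast; ring
      rw [this]
      linarith
    have h2 : (1 : ℝ) ≤ k := by
      have : 1 ≤ k := by omega
      exact_mod_cast this
    rw [div_lt_iff₀ hε] at h1
    rw [div_le_iff₀ (by positivity)]
    nlinarith
  obtain ⟨n₀, hn₀⟩ := exists_large k
  have hfix' : ∀ n : ℕ, ∃ Q : ℕ, 3 ≤ n → ∀ q : ℕ, Q ≤ q → ∃ R : ℕ,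
      (R : ℝ) ≤ (1 + ε) * ((q : ℝ) ^ n / (n * ((q : ℝ) - 1) + 1)) ∧
      ∀ T : Ten (fun _ : Fin n => Fin q), T ∈ Sums (fun _ : Fin n => Fin q) R := by
    intro n
    by_cases hn : 3 ≤ n
    · obtain ⟨Q, hQ⟩ := hfix n hn ε hε
      exact ⟨Q, fun _ => hQ⟩
    · exact ⟨0, fun h => absurd h hn⟩
  choose Q hQ using hfix'
  refine ⟨∑ n ∈ Finset.range n₀, Q n ^ n, fun n q hn hq hN => ?_⟩
  by_cases hlt : n < n₀
  · refine hQ n hn q ?_
    have h1 : Q n ^ n ≤ q ^ n :=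
      (Finset.single_le_sum (f := fun n => Q n ^ n) (fun _ _ => Nat.zero_le _)
        (Finset.mem_range.2 hlt)).trans hN
    exact (Nat.pow_le_pow_iff_left (by omega)).1 h1
  · have h1 := hn₀ n (not_lt.1 hlt) q hq
    obtain ⟨R, hR, hT⟩ := many (n := n) (k := k) (by omega) (by omega) (fun _ => q)
      (fun _ => hq) (by
        rw [Finset.sum_const, Finset.prod_const, Finset.card_univ, Fintype.card_fin, smul_eq_mul]
        exact h1)
    refine ⟨R, hR.trans ?_, hT⟩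
    rw [Finset.sum_const, Finset.prod_const, Finset.card_univ, Fintype.card_fin, nsmul_eq_mul]
    have h2 : (0 : ℝ) ≤ (q : ℝ) ^ n / (n * ((q : ℝ) - 1) + 1) := by
      have : (2 : ℝ) ≤ q := by exact_mod_cast hq
      have h3 : (0 : ℝ) ≤ (q : ℝ) - 1 := by linarith
      positivity
    exact mul_le_mul_of_nonneg_right (by linarith) h2

end Pool.Agent.H19.TR
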