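import Mathlib

/-!
MP_b12e0e_ag (helper19): generic choices of vectors.
-/

set_option autoImplicit false

open Set Function Module

open scoped ContDiff

namespace Pool.Agent.H19.TR

/-- a real analytic function which is not identically zero is nonzero on a dense set -/
theorem dense_ne_zero {E : Type} [NormedAddCommGroup E] [NormedSpace ℝ E] (f : E → ℝ)
    (hf : ContDiff ℝ ω f) (x : E) (hx : f x ≠ 0) : Dense {y | f y ≠ 0} := by
  rw [dense_iff_inter_open]
  intro O hO hne
  by_contra hcon
  obtain ⟨z, hz⟩ := hne
  have h1 : ∀ y ∈ O, f y = 0 := by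
    intro y hy
    by_contra h
    exact hcon ⟨y, hy, h⟩
  have h2 : AnalyticOnNhd ℝ f univ := hf.analyticOnNhd
  have h3 : f =ᶠ[nhds z] 0 := by
    filter_upwards [hO.mem_nhds hz] with y hy using h1 y hy
  exact hx (h2.eqOn_zero_of_preconnected_of_eventuallyEq_zero isPreconnected_univ
    (mem_univ z) h3 (mem_univ x))

/-- for a proper subspace there is a functional vanishing on it -/
theorem exists_functional {E : Type} [NormedAddCommGroup E] [NormedSpace ℝ E]
    [FiniteDimensional ℝ E] (H : Submodule ℝ E) (hH : H ≠ ⊤) :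
    ∃ (ℓ : E →L[ℝ] ℝ), ℓ ≠ 0 ∧ ∀ x ∈ H, ℓ x = 0 := by
  obtain ⟨f, hf, hfH⟩ := Submodule.exists_le_ker_of_lt_top H (lt_top_iff_ne_top.2 hH)
  refine ⟨LinearMap.toContinuousLinearMap f, ?_, fun x hx => ?_⟩
  · intro h
    apply hf
    ext x
    have := congrArg (fun g : E →L[ℝ] ℝ => g x) h
    simpa using this
  · have := hfH hx
    simpa using this

section
variable {κ Z E : Type} [DecidableEq κ] [TopologicalSpace Z] [NormedAddCommGroup E]
  [NormedSpace ℝ E] [FiniteDimensional ℝ E]

/-- adding generic vectors to a subspace -/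
theorem dense_step (φ : κ → Z → E)
    (hφ : ∀ l (H : Submodule ℝ E), H ≠ ⊤ → Dense {z | φ l z ∉ H})
    (W : (κ → Z) → Submodule ℝ E) (t : ℕ) (S : Finset κ)
    (hW : ∀ l ∈ S, ∀ z w, W (update z l w) = W z)
    (h0 : Dense {z | min (finrank ℝ E) t ≤ finrank ℝ (W z)}) :
    Dense {z : κ → Z | min (finrank ℝ E) (t + S.card) ≤
      finrank ℝ (W z ⊔ Submodule.span ℝ ((fun l => φ l (z l)) '' (S : Set κ)) :
        Submodule ℝ E)} := by
  induction S using Finset.induction_on with
  | empty =>
    refine h0.mono fun z hz => ?_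
    have h1 : (W z ⊔ Submodule.span ℝ ((fun l => φ l (z l)) '' ((∅ : Finset κ) : Set κ)) :
        Submodule ℝ E) = W z := by
      rw [Finset.coe_empty, image_empty, Submodule.span_empty, sup_bot_eq]
    show min (finrank ℝ E) (t + 0) ≤ finrank ℝ (W z ⊔ Submodule.span ℝ
      ((fun l => φ l (z l)) '' ((∅ : Finset κ) : Set κ)) : Submodule ℝ E)
    rw [h1]
    exact hz
  | insert l' S hl' ih =>
    have ih' := ih (fun l hl => hW l (Finset.mem_insert_of_mem hl))
    rw [dense_iff_inter_open]
    intro O hO hne
    obtain ⟨z, hzO, hz⟩ := ih'.inter_open_nonempty O hO hne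
    simp only [mem_ofPred_eq] at hz
    set H : Submodule ℝ E := W z ⊔ Submodule.span ℝ ((fun l => φ l (z l)) '' (S : Set κ)) with hH
    rw [Finset.card_insert_of_notMem hl']
    by_cases htop : H = ⊤
    · refine ⟨z, hzO, ?_⟩
      simp only [mem_ofPred_eq]
      have h1 : (W z ⊔ Submodule.span ℝ ((fun l => φ l (z l)) '' ((insert l' S : Finset κ) :
          Set κ)) : Submodule ℝ E) = ⊤ := by
        rw [eq_top_iff, ← htop, hH]
        refine sup_le_sup_left (Submodule.span_mono (image_mono ?_)) _
        exact_mod_cast Finset.subset_insert l' S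
      rw [h1, finrank_top]
      exact min_le_left _ _
    · have hcont : Continuous (fun w : Z => update z l' w) := by
        fun_prop
      obtain ⟨w, hwO, hw⟩ := (hφ l' H htop).inter_open_nonempty _ (hO.preimage hcont)
        ⟨z l', by simpa using hzO⟩
      refine ⟨update z l' w, hwO, ?_⟩
      simp only [mem_ofPred_eq] at hw ⊢
      rw [hW l' (Finset.mem_insert_self _ _)]
      have h1 : (fun l => φ l (update z l' w l)) '' ((insert l' S : Finset κ) : Set κ) =
          insert (φ l' w) ((fun l => φ l (z l)) '' (S : Set κ)) := by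
        rw [Finset.coe_insert, image_insert_eq, update_self]
        congr 1
        refine image_congr fun l hl => ?_
        have : l ≠ l' := fun h => hl' (h ▸ hl)
        simp only [update_of_ne this]
      rw [h1]
      have h2 : H < W z ⊔ Submodule.span ℝ (insert (φ l' w) ((fun l => φ l (z l)) '' (S : Set κ))) := by
        refine lt_of_le_of_ne (sup_le_sup_left (Submodule.span_mono (subset_insert _ _)) _) ?_
        intro h
        apply hw
        rw [h]
        exact Submodule.mem_sup_right (Submodule.subset_span (mem_insert _ _))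
      have h3 := Submodule.finrank_lt_finrank_of_lt h2
      omega

end

end Pool.Agent.H19.TR
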