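import Mathlib

set_option autoImplicit false

/-!
# Labels with few collisions for two factors of equal dimension

Problem MP_b12e0e_ag, note 6482 and its extension to order five (helper93).
-/

open Function

namespace Pool.Agent.H93.TR

/-- each word has at least `g` neighbours whose labels are distinct and different from its own -/
def LabG {ι : Type} [DecidableEq ι] {α : ι → Type} {A : Type} (f : ((i : ι) → α i) → A) (g : ℕ) :
    Prop :=
  ∀ x : (i : ι) → α i, ∃ N : Finset (Sigma α), g ≤ N.card ∧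
    (∀ s ∈ N, f (update x s.1 s.2) ≠ f x) ∧
    (∀ s ∈ N, ∀ s' ∈ N, f (update x s.1 s.2) = f (update x s'.1 s'.2) → s = s')

/-- the first `e - v` coordinates -/
private def labgPi (v e : ℕ) (w : Fin e → ZMod 2) : Fin (e - v) → ZMod 2 :=
  fun i => w ⟨i.1, by omega⟩

/-- the last `v` coordinates -/
private def labgKa (v e : ℕ) (hv : v ≤ e) (w : Fin e → ZMod 2) : Fin v → ZMod 2 :=
  fun i => w ⟨e - v + i.1, by omega⟩

private lemma labg_eq (v e : ℕ) (hv : v ≤ e) {w w' : Fin e → ZMod 2}
    (h1 : labgPi v e w = labgPi v e w') (h2 : labgKa v e hv w = labgKa v e hv w') : w = w' := by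
  funext j
  by_cases hj : j.1 < e - v
  · exact congrFun h1 ⟨j.1, hj⟩
  · have h := congrFun h2 ⟨j.1 - (e - v), by omega⟩
    have hj' : (⟨e - v + (j.1 - (e - v)), by omega⟩ : Fin e) = j := by
      apply Fin.ext
      show e - v + (j.1 - (e - v)) = j.1
      omega
    simp only [labgKa] at h
    rwa [hj'] at h

private lemma labg_count (q v e : ℕ) (hv : v ≤ e) (β : Fin q ↪ (Fin e → ZMod 2)) (a : Fin q) :
    (Finset.univ.filter fun a' => labgPi v e (β a') = labgPi v e (β a)).card ≤ 2 ^ v := by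
  have h := Finset.card_le_card_of_injOn
    (s := Finset.univ.filter fun a' => labgPi v e (β a') = labgPi v e (β a))
    (t := (Finset.univ : Finset (Fin v → ZMod 2))) (fun a' => labgKa v e hv (β a'))
    (fun _ _ => Finset.mem_coe.2 (Finset.mem_univ _)) (by
      intro b hb c hc hbc
      simp only [Finset.coe_filter, Finset.mem_univ, true_and, Set.mem_setOf_eq] at hb hc
      exact β.injective (labg_eq v e hv (hb.trans hc.symm) hbc))
  have h2 : (Finset.univ : Finset (Fin v → ZMod 2)).card = 2 ^ v := by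
    rw [Finset.card_univ, Fintype.card_fun, ZMod.card, Fintype.card_fin]
  rwa [h2] at h

theorem exists_labG (q v e : ℕ) (hq : q ≤ 2 ^ e) (hv : v ≤ e) :
    ∃ (A : Type) (_ : AddCommGroup A) (_ : Fintype A) (φ : Fin 2 → Fin q → A),
      (∀ g : A, g + g = 0) ∧ Fintype.card A = 2 ^ e * 2 ^ (e - v) ∧
      LabG (fun x : Fin 2 → Fin q => ∑ i, φ i (x i)) (2 * (q - 1) - (2 ^ v - 1)) := by
  classical
  obtain ⟨β⟩ : Nonempty (Fin q ↪ (Fin e → ZMod 2)) := by
    apply Function.Embedding.nonempty_of_card_le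
    rw [Fintype.card_fin, Fintype.card_fun, ZMod.card, Fintype.card_fin]
    exact hq
  set φ : Fin 2 → Fin q → (Fin e → ZMod 2) × (Fin (e - v) → ZMod 2) := fun i a =>
    if i = 0 then (β a, labgPi v e (β a)) else (β a, 0) with hφ
  refine ⟨(Fin e → ZMod 2) × (Fin (e - v) → ZMod 2), inferInstance, inferInstance, φ, ?_, ?_, ?_⟩
  · intro g
    ext i
    · exact CharTwo.add_self_eq_zero _
    · exact CharTwo.add_self_eq_zero _
  · rw [Fintype.card_prod, Fintype.card_fun, Fintype.card_fun, ZMod.card, Fintype.card_fin,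
      Fintype.card_fin]
  · intro x
    have hf : ∀ y : Fin 2 → Fin q, ∑ i, φ i (y i) = (β (y 0) + β (y 1), labgPi v e (β (y 0))) := by
      intro y
      rw [Fin.sum_univ_two]
      simp [hφ]
    have h1 : ∀ b : Fin q, ∑ i, φ i ((update x 1 b : Fin 2 → Fin q) i) =
        (β (x 0) + β b, labgPi v e (β (x 0))) := by
      intro b
      rw [hf]
      simp
    have h0 : ∀ a : Fin q, ∑ i, φ i ((update x 0 a : Fin 2 → Fin q) i) =
        (β a + β (x 1), labgPi v e (β a)) := by
      intro a
      rw [hf]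
      simp
    set F : Finset (Fin q) := Finset.univ.filter fun a' => labgPi v e (β a') = labgPi v e (β (x 0))
      with hF
    set N1 : Finset (Sigma fun _ : Fin 2 => Fin q) :=
      (Finset.univ.erase (x 1)).map ⟨fun b => ⟨1, b⟩, fun b c h => by simpa using h⟩ with hN1
    set N0 : Finset (Sigma fun _ : Fin 2 => Fin q) :=
      (Finset.univ \ F).map ⟨fun a => ⟨0, a⟩, fun b c h => by simpa using h⟩ with hN0
    have hmem1 : ∀ s ∈ N1, ∃ b, b ≠ x 1 ∧ s = ⟨1, b⟩ := by
      intro s hs
      rw [hN1, Finset.mem_map] at hs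
      obtain ⟨b, hb, rfl⟩ := hs
      exact ⟨b, (Finset.mem_erase.1 hb).1, rfl⟩
    have hmem0 : ∀ s ∈ N0, ∃ a, labgPi v e (β a) ≠ labgPi v e (β (x 0)) ∧ s = ⟨0, a⟩ := by
      intro s hs
      rw [hN0, Finset.mem_map] at hs
      obtain ⟨a, ha, rfl⟩ := hs
      refine ⟨a, fun h => (Finset.mem_sdiff.1 ha).2 ?_, rfl⟩
      rw [hF, Finset.mem_filter]
      exact ⟨Finset.mem_univ _, h⟩
    have hdisj : Disjoint N1 N0 := by
      rw [Finset.disjoint_left]
      intro s hs hs'
      obtain ⟨b, _, rfl⟩ := hmem1 s hs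
      obtain ⟨a, _, h⟩ := hmem0 _ hs'
      have h10 : (1 : Fin 2) = 0 := congrArg Sigma.fst h
      exact absurd h10 (by decide)
    refine ⟨N1 ∪ N0, ?_, ?_, ?_⟩
    · rw [Finset.card_union_of_disjoint hdisj, hN1, hN0, Finset.card_map, Finset.card_map,
        Finset.card_erase_of_mem (Finset.mem_univ _), Finset.card_sdiff_of_subset
        (Finset.subset_univ _), Finset.card_univ, Fintype.card_fin]
      have hc : F.card ≤ 2 ^ v := labg_count q v e hv β (x 0)
      have hc1 : 1 ≤ F.card := Finset.card_pos.2 ⟨x 0, by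
        rw [hF, Finset.mem_filter]; exact ⟨Finset.mem_univ _, rfl⟩⟩
      have hc2 : F.card ≤ q := by
        have := Finset.card_le_univ F
        rwa [Fintype.card_fin] at this
      generalize 2 ^ v = P at hc ⊢
      omega
    · intro s hs
      rcases Finset.mem_union.1 hs with hs | hs
      · obtain ⟨b, hb, rfl⟩ := hmem1 s hs
        show ∑ i, φ i ((update x 1 b : Fin 2 → Fin q) i) ≠ ∑ i, φ i (x i)
        rw [h1, hf]
        intro h
        exact hb (β.injective (add_left_cancel (Prod.ext_iff.1 h).1))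
      · obtain ⟨a, ha, rfl⟩ := hmem0 s hs
        show ∑ i, φ i ((update x 0 a : Fin 2 → Fin q) i) ≠ ∑ i, φ i (x i)
        rw [h0, hf]
        intro h
        exact ha (Prod.ext_iff.1 h).2
    · intro s hs s' hs'
      rcases Finset.mem_union.1 hs with hs | hs <;> rcases Finset.mem_union.1 hs' with hs' | hs'
      · obtain ⟨b, hb, rfl⟩ := hmem1 s hs
        obtain ⟨c, hc, rfl⟩ := hmem1 s' hs'
        show ∑ i, φ i ((update x 1 b : Fin 2 → Fin q) i) =
          ∑ i, φ i ((update x 1 c : Fin 2 → Fin q) i) → _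
        rw [h1, h1]
        intro h
        rw [β.injective (add_left_cancel (Prod.ext_iff.1 h).1)]
      · obtain ⟨b, hb, rfl⟩ := hmem1 s hs
        obtain ⟨c, hc, rfl⟩ := hmem0 s' hs'
        show ∑ i, φ i ((update x 1 b : Fin 2 → Fin q) i) =
          ∑ i, φ i ((update x 0 c : Fin 2 → Fin q) i) → _
        rw [h1, h0]
        intro h
        exact absurd (Prod.ext_iff.1 h).2.symm hc
      · obtain ⟨b, hb, rfl⟩ := hmem0 s hs
        obtain ⟨c, hc, rfl⟩ := hmem1 s' hs'
        show ∑ i, φ i ((update x 0 b : Fin 2 → Fin q) i) =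
          ∑ i, φ i ((update x 1 c : Fin 2 → Fin q) i) → _
        rw [h1, h0]
        intro h
        exact absurd (Prod.ext_iff.1 h).2 hb
      · obtain ⟨b, hb, rfl⟩ := hmem0 s hs
        obtain ⟨c, hc, rfl⟩ := hmem0 s' hs'
        show ∑ i, φ i ((update x 0 b : Fin 2 → Fin q) i) =
          ∑ i, φ i ((update x 0 c : Fin 2 → Fin q) i) → _
        rw [h0, h0]
        intro h
        rw [β.injective (add_right_cancel (Prod.ext_iff.1 h).1)]

private lemma labg_count2 {m : ℕ} (v e : ℕ) (hv : v ≤ e) (β : Fin m ↪ (Fin e → ZMod 2))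
    (w : Fin e → ZMod 2) :
    (Finset.univ.filter fun a' => labgPi v e (β a') = labgPi v e w).card ≤ 2 ^ v := by
  have h := Finset.card_le_card_of_injOn
    (s := Finset.univ.filter fun a' => labgPi v e (β a') = labgPi v e w)
    (t := (Finset.univ : Finset (Fin v → ZMod 2))) (fun a' => labgKa v e hv (β a'))
    (fun _ _ => Finset.mem_coe.2 (Finset.mem_univ _)) (by
      intro b hb c hc hbc
      simp only [Finset.coe_filter, Finset.mem_univ, true_and, Set.mem_setOf_eq] at hb hc
      exact β.injective (labg_eq v e hv (hb.trans hc.symm) hbc))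
  have h2 : (Finset.univ : Finset (Fin v → ZMod 2)).card = 2 ^ v := by
    rw [Finset.card_univ, Fintype.card_fun, ZMod.card, Fintype.card_fin]
  rwa [h2] at h

/-- the same for two factors of different dimensions -/
theorem exists_labG2 (q : Fin 2 → ℕ) (v e : ℕ) (hq : ∀ i, q i ≤ 2 ^ e) (hv : v ≤ e) :
    ∃ (A : Type) (_ : AddCommGroup A) (_ : Fintype A) (φ : (i : Fin 2) → Fin (q i) → A),
      (∀ g : A, g + g = 0) ∧ Fintype.card A = 2 ^ e * 2 ^ (e - v) ∧
      LabG (fun x : (i : Fin 2) → Fin (q i) => ∑ i, φ i (x i))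
        ((q 0 - 1) + (q 1 - 1) - (2 ^ v - 1)) := by
  classical
  have hβ : ∀ i, Nonempty (Fin (q i) ↪ (Fin e → ZMod 2)) := by
    intro i
    apply Function.Embedding.nonempty_of_card_le
    rw [Fintype.card_fin, Fintype.card_fun, ZMod.card, Fintype.card_fin]
    exact hq i
  let β : (i : Fin 2) → Fin (q i) ↪ (Fin e → ZMod 2) := fun i => (hβ i).some
  set φ : (i : Fin 2) → Fin (q i) → (Fin e → ZMod 2) × (Fin (e - v) → ZMod 2) := fun i a =>
    (β i a, if i = 0 then labgPi v e (β i a) else 0) with hφ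
  refine ⟨(Fin e → ZMod 2) × (Fin (e - v) → ZMod 2), inferInstance, inferInstance, φ, ?_, ?_, ?_⟩
  · intro g
    ext i
    · exact CharTwo.add_self_eq_zero _
    · exact CharTwo.add_self_eq_zero _
  · rw [Fintype.card_prod, Fintype.card_fun, Fintype.card_fun, ZMod.card, Fintype.card_fin,
      Fintype.card_fin]
  · intro x
    have hf : ∀ y : (i : Fin 2) → Fin (q i), ∑ i, φ i (y i) =
        (β 0 (y 0) + β 1 (y 1), labgPi v e (β 0 (y 0))) := by
      intro y
      rw [Fin.sum_univ_two]
      simp [hφ]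
    have h1 : ∀ b : Fin (q 1), ∑ i, φ i ((update x 1 b : (i : Fin 2) → Fin (q i)) i) =
        (β 0 (x 0) + β 1 b, labgPi v e (β 0 (x 0))) := by
      intro b
      rw [hf, update_self, update_of_ne (by decide)]
    have h0 : ∀ a : Fin (q 0), ∑ i, φ i ((update x 0 a : (i : Fin 2) → Fin (q i)) i) =
        (β 0 a + β 1 (x 1), labgPi v e (β 0 a)) := by
      intro a
      rw [hf, update_self, update_of_ne (by decide)]
    set F : Finset (Fin (q 0)) := Finset.univ.filter fun a' =>
      labgPi v e (β 0 a') = labgPi v e (β 0 (x 0)) with hF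
    set N1 : Finset (Sigma fun i : Fin 2 => Fin (q i)) :=
      (Finset.univ.erase (x 1)).map ⟨fun b => ⟨1, b⟩, fun b c h => by simpa using h⟩ with hN1
    set N0 : Finset (Sigma fun i : Fin 2 => Fin (q i)) :=
      (Finset.univ \ F).map ⟨fun a => ⟨0, a⟩, fun b c h => by simpa using h⟩ with hN0
    have hmem1 : ∀ s ∈ N1, ∃ b : Fin (q 1), b ≠ x 1 ∧ s = ⟨1, b⟩ := by
      intro s hs
      rw [hN1, Finset.mem_map] at hs
      obtain ⟨b, hb, rfl⟩ := hs
      exact ⟨b, (Finset.mem_erase.1 hb).1, rfl⟩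
    have hmem0 : ∀ s ∈ N0, ∃ a : Fin (q 0),
        labgPi v e (β 0 a) ≠ labgPi v e (β 0 (x 0)) ∧ s = ⟨0, a⟩ := by
      intro s hs
      rw [hN0, Finset.mem_map] at hs
      obtain ⟨a, ha, rfl⟩ := hs
      refine ⟨a, fun h => (Finset.mem_sdiff.1 ha).2 ?_, rfl⟩
      rw [hF, Finset.mem_filter]
      exact ⟨Finset.mem_univ _, h⟩
    have hdisj : Disjoint N1 N0 := by
      rw [Finset.disjoint_left]
      intro s hs hs'
      obtain ⟨b, _, rfl⟩ := hmem1 s hs
      obtain ⟨a, _, h⟩ := hmem0 _ hs'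
      have h10 : (1 : Fin 2) = 0 := congrArg Sigma.fst h
      exact absurd h10 (by decide)
    refine ⟨N1 ∪ N0, ?_, ?_, ?_⟩
    · rw [Finset.card_union_of_disjoint hdisj, hN1, hN0, Finset.card_map, Finset.card_map,
        Finset.card_erase_of_mem (Finset.mem_univ _), Finset.card_sdiff_of_subset
        (Finset.subset_univ _), Finset.card_univ, Finset.card_univ, Fintype.card_fin,
        Fintype.card_fin]
      have hc : F.card ≤ 2 ^ v := labg_count2 v e hv (β 0) (β 0 (x 0))
      have hc1 : 1 ≤ F.card := Finset.card_pos.2 ⟨x 0, by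
        rw [hF, Finset.mem_filter]; exact ⟨Finset.mem_univ _, rfl⟩⟩
      have hc2 : F.card ≤ q 0 := by
        have := Finset.card_le_univ F
        rwa [Fintype.card_fin] at this
      generalize 2 ^ v = P at hc ⊢
      omega
    · intro s hs
      rcases Finset.mem_union.1 hs with hs | hs
      · obtain ⟨b, hb, rfl⟩ := hmem1 s hs
        show ∑ i, φ i ((update x 1 b : (i : Fin 2) → Fin (q i)) i) ≠ ∑ i, φ i (x i)
        rw [h1, hf]
        intro h
        exact hb ((β 1).injective (add_left_cancel (Prod.ext_iff.1 h).1))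
      · obtain ⟨a, ha, rfl⟩ := hmem0 s hs
        show ∑ i, φ i ((update x 0 a : (i : Fin 2) → Fin (q i)) i) ≠ ∑ i, φ i (x i)
        rw [h0, hf]
        intro h
        exact ha (Prod.ext_iff.1 h).2
    · intro s hs s' hs'
      rcases Finset.mem_union.1 hs with hs | hs <;> rcases Finset.mem_union.1 hs' with hs' | hs'
      · obtain ⟨b, hb, rfl⟩ := hmem1 s hs
        obtain ⟨c, hc, rfl⟩ := hmem1 s' hs'
        show ∑ i, φ i ((update x 1 b : (i : Fin 2) → Fin (q i)) i) =
          ∑ i, φ i ((update x 1 c : (i : Fin 2) → Fin (q i)) i) → _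
        rw [h1, h1]
        intro h
        rw [(β 1).injective (add_left_cancel (Prod.ext_iff.1 h).1)]
      · obtain ⟨b, hb, rfl⟩ := hmem1 s hs
        obtain ⟨c, hc, rfl⟩ := hmem0 s' hs'
        show ∑ i, φ i ((update x 1 b : (i : Fin 2) → Fin (q i)) i) =
          ∑ i, φ i ((update x 0 c : (i : Fin 2) → Fin (q i)) i) → _
        rw [h1, h0]
        intro h
        exact absurd (Prod.ext_iff.1 h).2.symm hc
      · obtain ⟨b, hb, rfl⟩ := hmem0 s hs
        obtain ⟨c, hc, rfl⟩ := hmem1 s' hs'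
        show ∑ i, φ i ((update x 0 b : (i : Fin 2) → Fin (q i)) i) =
          ∑ i, φ i ((update x 1 c : (i : Fin 2) → Fin (q i)) i) → _
        rw [h1, h0]
        intro h
        exact absurd (Prod.ext_iff.1 h).2 hb
      · obtain ⟨b, hb, rfl⟩ := hmem0 s hs
        obtain ⟨c, hc, rfl⟩ := hmem0 s' hs'
        show ∑ i, φ i ((update x 0 b : (i : Fin 2) → Fin (q i)) i) =
          ∑ i, φ i ((update x 0 c : (i : Fin 2) → Fin (q i)) i) → _
        rw [h0, h0]
        intro h
        rw [(β 0).injective (add_right_cancel (Prod.ext_iff.1 h).1)]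

end Pool.Agent.H93.TR
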