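import Pool.Agent.H19.TR.Lines
import Pool.Agent.H93.TR.Group

/-!
MP_b12e0e_ag (helper19): each factor is split into a part carrying product vectors and a part
carrying labels; generic choice of the product vectors.
-/

set_option autoImplicit false

open Set Function Module Pool.Agent.H93.TR

namespace Pool.Agent.H19.TR

section
variable {ι : Type} [Fintype ι] [DecidableEq ι] {E K : ι → Type} [∀ i, Fintype (E i)]
  [∀ i, DecidableEq (E i)] [∀ i, Fintype (K i)] [∀ i, DecidableEq (K i)]

/-- joining with a basis vector in each factor -/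
def jp (p : Par E) (x : (i : ι) → K i) : Par (fun i => E i × K i) :=
  fun i c => p i c.1 * (bs x : Par K) i c.2

/-- the product with a basis tensor of the second parts -/
def tp (x : (i : ι) → K i) : Ten E →ₗ[ℝ] Ten (fun i => E i × K i) where
  toFun S y := S (fun i => (y i).1) * sg (bs x) fun i => (y i).2
  map_add' S S' := by
    funext y
    simp [add_mul]
  map_smul' c S := by
    funext y
    simp [mul_assoc]

omit [DecidableEq ι] [∀ i, Fintype (E i)] [∀ i, DecidableEq (E i)] [∀ i, Fintype (K i)] in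
theorem sg_jp (p : Par E) (x : (i : ι) → K i) (y : (i : ι) → E i × K i) :
    sg (jp p x) y = sg p (fun i => (y i).1) * sg (bs x) fun i => (y i).2 := by
  unfold sg jp
  rw [← Finset.prod_mul_distrib]

omit [DecidableEq ι] [∀ i, Fintype (E i)] [∀ i, DecidableEq (E i)] [∀ i, Fintype (K i)] in
theorem tp_sg (x : (i : ι) → K i) (p : Par E) : tp x (sg p) = sg (jp p x) := by
  funext y
  rw [sg_jp]
  rfl

omit [Fintype ι] [∀ i, Fintype (E i)] [∀ i, DecidableEq (E i)] [∀ i, Fintype (K i)] in
/-- changing one factor changes one letter of the word -/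
theorem update_jp (p : Par E) (x : (i : ι) → K i) (i : ι) (k : K i) (h : E i → ℝ) :
    update (jp p (update x i k)) i (fun c => h c.1 * (bs x : Par K) i c.2) =
      jp (update p i h) x := by
  funext l
  by_cases hl : l = i
  · subst hl
    rw [update_self]
    funext c
    unfold jp
    rw [update_self]
  · rw [update_of_ne hl]
    funext c
    unfold jp bs
    rw [update_of_ne hl, update_of_ne hl]

omit [Fintype ι] [DecidableEq ι] [∀ i, Fintype (E i)] [∀ i, Fintype (K i)] in
theorem bs_jp (y : (i : ι) → E i × K i) :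
    bs y = jp (bs fun i => (y i).1) (fun i => (y i).2) := by
  funext l
  funext c
  unfold jp bs
  rcases c with ⟨c, k⟩
  by_cases h1 : c = (y l).1
  · by_cases h2 : k = (y l).2
    · subst h1
      subst h2
      show (Pi.single (y l) 1 : E l × K l → ℝ) (y l) = _
      simp
    · have h3 : (c, k) ≠ y l := fun h => h2 (by rw [← h])
      rw [Pi.single_eq_of_ne h3]
      simp [Pi.single_eq_of_ne h2]
  · have h3 : (c, k) ≠ y l := fun h => h1 (by rw [← h])
    rw [Pi.single_eq_of_ne h3]
    simp [Pi.single_eq_of_ne h1]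

/-! ### Generic choice -/

variable {A : Type} [Fintype A] [DecidableEq A] (f : ((i : ι) → K i) → A) (r : ℕ)

/-- names of the vectors available at a word -/
abbrev Gl (E K : ι → Type) (r : ℕ) : Type := (Σ i : ι, K i × E i) × Fin r

/-- the vectors available at the word `x` -/
def genl {R : Type} [CommRing R] (a : A → Fin r → (i : ι) → E i → R) (x : (i : ι) → K i)
    (g : Gl E K r) : ((i : ι) → E i) → R :=
  sgR (update (a (f (update x g.1.1 g.1.2.1)) g.2) g.1.1 (Pi.single g.1.2.2 1))

omit [∀ i, Fintype (E i)] [∀ i, Fintype (K i)] [∀ i, DecidableEq (K i)] [Fintype A]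
  [DecidableEq A] in
theorem map_genl {R S : Type} [CommRing R] [CommRing S] (φ : R →+* S)
    (a : A → Fin r → (i : ι) → E i → R) (x : (i : ι) → K i) (g : Gl E K r)
    (z : (i : ι) → E i) :
    φ (genl f r a x g z) = genl f r (fun c j i d => φ (a c j i d)) x g z := by
  show φ (sgR (update (a (f (update x g.1.1 g.1.2.1)) g.2) g.1.1 (Pi.single g.1.2.2 1)) z) =
    sgR (update (fun i d => φ (a (f (update x g.1.1 g.1.2.1)) g.2 i d)) g.1.1
      (Pi.single g.1.2.2 1)) z
  rw [map_sgR, map_update]

/-- the square matrix given by a choice `sp` of vectors -/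
def Ml {R : Type} [CommRing R] (sp : ((i : ι) → K i) → ((i : ι) → E i) → Gl E K r)
    (a : A → Fin r → (i : ι) → E i → R) (x : (i : ι) → K i) :
    Matrix ((i : ι) → E i) ((i : ι) → E i) R :=
  Matrix.of fun z z' => genl f r a x (sp x z) z'

omit [∀ i, DecidableEq (K i)] [Fintype A] [DecidableEq A] [∀ i, Fintype (K i)] in
/-- a spanning family contains a square matrix with nonzero determinant -/
theorem exists_det (x : (i : ι) → K i) (q : A → Fin r → Par E)
    (hq : ∀ z : (i : ι) → E i, (sg (bs z) : Ten E) ∈ Submodule.span ℝ (range (genl f r q x))) :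
    ∃ sp : ((i : ι) → E i) → Gl E K r,
      (Matrix.of fun z z' => genl f r q x (sp z) z' :
        Matrix ((i : ι) → E i) ((i : ι) → E i) ℝ).det ≠ 0 := by
  classical
  obtain ⟨κ, a, _, hspan, hli⟩ := exists_linearIndependent' ℝ (genl f r q x)
  have htop : (⊤ : Submodule ℝ (Ten E)) ≤ Submodule.span ℝ (range (genl f r q x ∘ a)) := by
    intro T _
    have h1 : T = ∑ z, T z • sg (bs z) := by
      funext y
      simp [Finset.sum_apply, sg_bs_apply]
    rw [hspan, h1]
    exact Submodule.sum_mem _ fun z _ => Submodule.smul_mem _ _ (hq z)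
  let b : Basis κ ℝ (Ten E) := Basis.mk hli htop
  let e : κ ≃ ((i : ι) → E i) := b.indexEquiv (Pi.basisFun ℝ ((i : ι) → E i))
  refine ⟨fun z => a (e.symm z), ?_⟩
  have h2 : LinearIndependent ℝ (fun z => genl f r q x (a (e.symm z))) :=
    hli.comp e.symm e.symm.injective
  have h3 : IsUnit (Matrix.of fun z z' => genl f r q x (a (e.symm z)) z' :
      Matrix ((i : ι) → E i) ((i : ι) → E i) ℝ) :=
    Matrix.linearIndependent_rows_iff_isUnit.1 h2
  exact ((Matrix.isUnit_iff_isUnit_det _).1 h3).ne_zero

omit [DecidableEq A] in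
/-- generic choice -/
theorem exists_genl
    (hsp : ∀ x : (i : ι) → K i, ∃ q : A → Fin r → Par E, ∀ z : (i : ι) → E i,
      (sg (bs z) : Ten E) ∈ Submodule.span ℝ (range (genl f r q x))) :
    ∃ p : A → Fin r → Par E, ∀ (x : (i : ι) → K i) (z : (i : ι) → E i),
      (sg (bs z) : Ten E) ∈ Submodule.span ℝ (range (genl f r p x)) := by
  classical
  choose q hq using hsp
  choose sp hsp using fun x => exists_det f r x (q x) (hq x)
  let σ : Type := A × Fin r × Sigma E
  let Xp : A → Fin r → (i : ι) → E i → MvPolynomial σ ℝ :=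
    fun c j i a => MvPolynomial.X (c, j, ⟨i, a⟩)
  have hmap : ∀ (v : σ → ℝ) (x : (i : ι) → K i),
      MvPolynomial.eval v (Ml f r sp Xp x).det =
        (Ml f r sp (fun c j i a => v (c, j, ⟨i, a⟩)) x).det := by
    intro v x
    rw [RingHom.map_det]
    congr 1
    ext z z'
    rw [RingHom.mapMatrix_apply, Matrix.map_apply]
    unfold Ml
    rw [Matrix.of_apply, Matrix.of_apply, map_genl]
    simp only [Xp, MvPolynomial.eval_X]
  have hne : ∀ x, (Ml f r sp Xp x).det ≠ 0 := by
    intro x h0
    have h1 := hmap (fun u => q x u.1 u.2.1 u.2.2.1 u.2.2.2) x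
    rw [h0, map_zero] at h1
    exact hsp x h1.symm
  have hprod : (∏ x, (Ml f r sp Xp x).det) ≠ 0 := Finset.prod_ne_zero_iff.2 fun x _ => hne x
  obtain ⟨v, hv⟩ : ∃ v : σ → ℝ, MvPolynomial.eval v (∏ x, (Ml f r sp Xp x).det) ≠ 0 := by
    by_contra hcon
    push Not at hcon
    exact hprod (MvPolynomial.funext fun v => by rw [hcon v, map_zero])
  rw [map_prod, Finset.prod_ne_zero_iff] at hv
  refine ⟨fun c j i a => v (c, j, ⟨i, a⟩), fun x z => ?_⟩
  set p : A → Fin r → Par E := fun c j i a => v (c, j, ⟨i, a⟩) with hp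
  have hdet : (Ml f r sp p x).det ≠ 0 := by
    rw [← hmap v x]
    exact hv x (Finset.mem_univ x)
  have hunit : IsUnit (Ml f r sp p x).det := isUnit_iff_ne_zero.2 hdet
  have hinv : (Ml f r sp p x)⁻¹ * Ml f r sp p x = 1 := Matrix.nonsing_inv_mul _ hunit
  have h4 : (sg (bs z) : Ten E) = ∑ z', (Ml f r sp p x)⁻¹ z z' • genl f r p x (sp x z') := by
    funext w
    have h5 := congrFun (congrFun hinv z) w
    rw [Matrix.mul_apply, Matrix.one_apply] at h5
    rw [sg_bs_apply, Finset.sum_apply]
    exact h5.symm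
  rw [h4]
  exact Submodule.sum_mem _ fun z' _ => Submodule.smul_mem _ _
    (Submodule.subset_span ⟨_, rfl⟩)

omit [∀ i, Fintype (K i)] [Fintype A] [DecidableEq A] in
/-- the span condition for the tensor given by labels -/
theorem span_labl (p : A → Fin r → Par E)
    (hp : ∀ (x : (i : ι) → K i) (z : (i : ι) → E i),
      sg (bs z) ∈ Submodule.span ℝ (range (genl f r p x)))
    (y : (i : ι) → E i × K i) :
    sg (bs y) ∈ Submodule.span ℝ {S : Ten (fun i => E i × K i) |
      ∃ (l : ((i : ι) → K i) × Fin r) (i : ι) (h : E i × K i → ℝ),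
        S = sg (update (jp (p (f l.1) l.2) l.1) i h)} := by
  set x : (i : ι) → K i := fun i => (y i).2 with hx
  set z : (i : ι) → E i := fun i => (y i).1 with hz
  have h1 : sg (bs y) = tp x (sg (bs z)) := by
    rw [tp_sg, bs_jp]
  rw [h1]
  have h2 := Submodule.mem_map_of_mem (f := tp x) (hp x z)
  rw [Submodule.map_span] at h2
  refine Submodule.span_mono ?_ h2
  rintro S ⟨S', ⟨g, rfl⟩, rfl⟩
  rcases g with ⟨⟨i, k, c⟩, j⟩
  refine ⟨(update x i k, j), i, fun c' => (Pi.single c 1 : E i → ℝ) c'.1 * (bs x : Par K) i c'.2, ?_⟩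
  show tp x (sg (update (p (f (update x i k)) j) i (Pi.single c 1))) = _
  rw [update_jp, ← tp_sg]

omit [∀ i, Fintype (E i)] [∀ i, DecidableEq (E i)] [Fintype A] [DecidableEq A] in
/-- the value of the tensor given by labels -/
theorem sum_labl (p : A → Fin r → Par E) (y : (i : ι) → E i × K i) :
    (∑ l : ((i : ι) → K i) × Fin r, sg (jp (p (f l.1) l.2) l.1) :
      Ten (fun i => E i × K i)) y =
      (∑ j, sg (p (f fun i => (y i).2) j) : Ten E) fun i => (y i).1 := by
  rw [Finset.sum_apply, Fintype.sum_prod_type, Finset.sum_apply,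
    Finset.sum_eq_single (fun i => (y i).2)]
  · refine Finset.sum_congr rfl fun j _ => ?_
    rw [sg_jp, sg_bs_apply, if_pos rfl, mul_one]
  · intro x _ hx
    refine Finset.sum_eq_zero fun j _ => ?_
    rw [sg_jp, sg_bs_apply, if_neg hx, mul_zero]
  · intro h
    exact absurd (Finset.mem_univ _) h

end

end Pool.Agent.H19.TR
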