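import Pool.Agent.H19.TR.LinGen

/-!
MP_b12e0e_ag (helper19): the upper bound given by lines and labels.
-/

set_option autoImplicit false

open Set Function Module Pool.Agent.H93.TR

namespace Pool.Agent.H19.TR

section
variable {ι : Type} [Fintype ι] [DecidableEq ι] {E K : ι → Type} [∀ i, Fintype (E i)]
  [∀ i, DecidableEq (E i)] [∀ i, Fintype (K i)] [∀ i, DecidableEq (K i)]

omit [∀ i, Fintype (K i)] [∀ i, DecidableEq (K i)] in
/-- the trivial bound: the product of all dimensions but one -/
theorem mem_Sums_triv (i₀ : ι) (S : Ten E) :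
    S ∈ Sums E (Fintype.card ((i : {i : ι // i ≠ i₀}) → E i)) := by
  classical
  have : Nonempty ι := ⟨i₀⟩
  let gl : ((i : {i : ι // i ≠ i₀}) → E i) → E i₀ → (i : ι) → E i :=
    fun t c i => if h : i = i₀ then cast (by rw [h]) c else t ⟨i, h⟩
  let v : ((i : {i : ι // i ≠ i₀}) → E i) → Par E := fun t i c =>
    if h : i = i₀ then S (gl t (cast (by rw [h]) c)) else (Pi.single (t ⟨i, h⟩) 1 : E i → ℝ) c
  have h1 := sum_smul_mem_Sums (α := E) (fun _ => (1 : ℝ)) v
  have h2 : S = ∑ t, (1 : ℝ) • sg (v t) := by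
    funext y
    rw [Finset.sum_apply, Finset.sum_eq_single (fun i : {i : ι // i ≠ i₀} => y i)]
    · rw [one_smul]
      unfold sg
      rw [← Finset.mul_prod_erase _ _ (Finset.mem_univ i₀), Finset.prod_eq_one, mul_one]
      · show S y = dite _ _ _
        rw [dif_pos rfl]
        congr 1
        funext i
        by_cases h : i = i₀
        · subst h
          simp [gl]
        · simp [gl, h]
      · intro i hi
        have h : i ≠ i₀ := Finset.ne_of_mem_erase hi
        show dite _ _ _ = (1 : ℝ)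
        rw [dif_neg h]
        simp
    · intro t _ ht
      rw [one_smul]
      obtain ⟨i, hi⟩ := Function.ne_iff.1 ht
      refine Finset.prod_eq_zero (Finset.mem_univ i.1) ?_
      show dite _ _ _ = (0 : ℝ)
      rw [dif_neg i.2]
      exact Pi.single_eq_of_ne (Ne.symm hi) _
    · intro h
      exact absurd (Finset.mem_univ _) h
  rw [h2]
  exact h1

omit [∀ i, DecidableEq (E i)] [∀ i, Fintype (K i)] [∀ i, DecidableEq (K i)] in
/-- functions of a label with values in the tensors of the first parts -/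
theorem labl_mem_Sums {A : Type} [AddCommGroup A] [Fintype A] [DecidableEq A]
    (h2 : ∀ g : A, g + g = 0) (φ : (i : ι) → K i → A) [Nonempty ι] {ρ : ℕ}
    (hρ : ∀ S : Ten E, S ∈ Sums E ρ) (G : A → Ten E) :
    (fun y : (i : ι) → E i × K i =>
      G (∑ i, φ i (y i).2) fun i => (y i).1) ∈
      Sums (fun i => E i × K i) (Fintype.card A * ρ) := by
  classical
  have hre : ∀ (ψ : AddChar A ℂ) (g : A), ψ g = ((ψ g).re : ℂ) := by
    intro ψ g
    have h1 : ψ g * ψ g = 1 := by
      rw [← AddChar.map_add_eq_mul, h2, AddChar.map_zero_eq_one]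
    rcases mul_self_eq_one_iff.1 h1 with h | h <;> simp [h]
  have hmul : ∀ (ψ : AddChar A ℂ) (g h : A), (ψ (g + h)).re = (ψ g).re * (ψ h).re := by
    intro ψ g h
    rw [AddChar.map_add_eq_mul, hre ψ g, hre ψ h]
    simp
  have hc := fun ψ : AddChar A ℂ =>
    hρ (∑ g : A, ((Fintype.card A : ℝ)⁻¹ * (ψ g).re) • G g)
  choose u hu using hc
  let v : AddChar A ℂ × Fin ρ → Par (fun i => E i × K i) :=
    fun k i c => u k.1 k.2 i c.1 * (k.1 (φ i c.2)).re
  have hS := sum_smul_mem_Sums (α := fun i => E i × K i) (fun _ => (1 : ℝ)) v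
  have hcard : Fintype.card (AddChar A ℂ × Fin ρ) = Fintype.card A * ρ := by
    rw [Fintype.card_prod, AddChar.card_eq, Fintype.card_fin]
  rw [hcard] at hS
  have heq : (fun y : (i : ι) → E i × K i => G (∑ i, φ i (y i).2) fun i => (y i).1) =
      ∑ l, (1 : ℝ) • sg (v l) := by
    funext y
    rw [Finset.sum_apply, Fintype.sum_prod_type]
    set z : (i : ι) → E i := fun i => (y i).1 with hz
    set a : A := ∑ i, φ i (y i).2 with ha
    have h3 : ∀ ψ : AddChar A ℂ, ∑ j, ((1 : ℝ) • sg (v (ψ, j))) y =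
        ∑ g : A, (Fintype.card A : ℝ)⁻¹ * (ψ (a + g)).re * G g z := by
      intro ψ
      have h4 : sg (fun i (a : K i) => (ψ (φ i a)).re) (fun i => (y i).2) = (ψ a).re := by
        have h5 : (∏ i, ψ (φ i (y i).2)) = ((∏ i, (ψ (φ i (y i).2)).re : ℝ) : ℂ) := by
          rw [Complex.ofReal_prod]
          exact Finset.prod_congr rfl fun i _ => hre ψ _
        rw [ha, char_sum, h5, Complex.ofReal_re]
        rfl
      have h6 : ∀ j, ((1 : ℝ) • sg (v (ψ, j))) y = sg (u ψ j) z * (ψ a).re := by
        intro j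
        rw [one_smul, ← h4]
        unfold sg
        rw [← Finset.prod_mul_distrib]
      rw [Finset.sum_congr rfl fun j _ => h6 j, ← Finset.sum_mul]
      have h7 := congrFun (hu ψ) z
      rw [Finset.sum_apply, Finset.sum_apply] at h7
      rw [← h7, Finset.sum_mul]
      refine Finset.sum_congr rfl fun g _ => ?_
      rw [hmul, Pi.smul_apply, smul_eq_mul]
      ring
    rw [Finset.sum_congr rfl fun ψ _ => h3 ψ, Finset.sum_comm]
    have h6 : ∀ g : A, ∑ ψ : AddChar A ℂ, (Fintype.card A : ℝ)⁻¹ * (ψ (a + g)).re * G g z =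
        (if a + g = 0 then 1 else 0) * G g z := by
      intro g
      rw [delta_eq, Finset.sum_mul]
    rw [Finset.sum_congr rfl fun g _ => h6 g, Finset.sum_eq_single a]
    · rw [h2, if_pos rfl, one_mul]
    · intro g _ hg
      rw [if_neg, zero_mul]
      intro h7
      apply hg
      have h8 : a + g = a + a := by rw [h7, h2]
      exact add_left_cancel h8
    · intro h
      exact absurd (Finset.mem_univ _) h
  rw [heq]
  exact hS

omit [∀ i, Fintype (K i)] in
/-- the special choice at a word -/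
theorem exists_spec {A : Type} {r : ℕ} (f : ((i : ι) → K i) → A)
    (x : (i : ι) → K i) {Λ : ι → Type} (hL : Lines E Λ) {N : ι → Type} (k : (i : ι) → N i → K i)
    (hk : Injective fun s : Σ i, N i => f (update x s.1 (k s.1 s.2)))
    (e : (i : ι) → Λ i → N i × Fin r) (he : ∀ i, Injective (e i)) :
    ∃ q : A → Fin r → Par E, ∀ z : (i : ι) → E i,
      (sg (bs z) : Ten E) ∈ Submodule.span ℝ (range (genl f r q x)) := by
  classical
  obtain ⟨q, hq⟩ := hL
  -- parameters of the used neighbours
  let P : (Σ i, N i) → Fin r → Par E := fun s j =>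
    if h : ∃ l : Λ s.1, e s.1 l = (s.2, j) then q s.1 h.choose else 0
  have hP : ∀ (i : ι) (l : Λ i), P ⟨i, (e i l).1⟩ (e i l).2 = q i l := by
    intro i l
    have h : ∃ l' : Λ i, e i l' = ((e i l).1, (e i l).2) := ⟨l, rfl⟩
    have h1 : P ⟨i, (e i l).1⟩ (e i l).2 = q i h.choose := dif_pos h
    rw [h1, he i h.choose_spec]
  refine ⟨fun c => Function.extend (fun s : Σ i, N i => f (update x s.1 (k s.1 s.2))) P 0 c,
    fun z => ?_⟩
  refine (Submodule.span_le.2 ?_) (hq z)
  rintro S ⟨i, l, h, rfl⟩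
  -- the line is spanned by its vectors
  have h1 : sg (update (q i l) i h) = ∑ c : E i, h c • sg (update (q i l) i (Pi.single c 1)) := by
    funext y
    rw [sg_update, Finset.sum_apply, Finset.sum_eq_single (y i)]
    · rw [Pi.smul_apply, sg_update]
      simp
    · intro c _ hc
      rw [Pi.smul_apply, sg_update, Pi.single_eq_of_ne (Ne.symm hc)]
      simp
    · intro h
      exact absurd (Finset.mem_univ _) h
  rw [h1]
  refine Submodule.sum_mem _ fun c _ => Submodule.smul_mem _ _ (Submodule.subset_span ?_)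
  refine ⟨(⟨i, (k i (e i l).1, c)⟩, (e i l).2), ?_⟩
  show sgR (update (Function.extend (fun s : Σ i, N i => f (update x s.1 (k s.1 s.2))) P 0
    (f (update x i (k i (e i l).1))) (e i l).2) i (Pi.single c 1)) = _
  have h2 : Function.extend (fun s : Σ i, N i => f (update x s.1 (k s.1 s.2))) P 0
      (f (update x i (k i (e i l).1))) = P ⟨i, (e i l).1⟩ :=
    hk.extend_apply P 0 ⟨i, (e i l).1⟩
  rw [h2, hP]
  rfl

/-- the upper bound given by lines and labels -/
theorem upper_lines [Nonempty ι] {A : Type} [AddCommGroup A] [Fintype A]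
    (h2 : ∀ g : A, g + g = 0) (φ : (i : ι) → K i → A) {ρ r : ℕ}
    (hρ : ∀ S : Ten E, S ∈ Sums E ρ) {Λ : ι → Type} (hL : Lines E Λ)
    (hk : ∀ x : (i : ι) → K i, ∃ (N : ι → Type) (k : (i : ι) → N i → K i),
      (Injective fun s : Σ i, N i => ∑ l, φ l (update x s.1 (k s.1 s.2) l)) ∧
      ∃ e : (i : ι) → Λ i → N i × Fin r, ∀ i, Injective (e i))
    (T : Ten fun i => E i × K i) :
    T ∈ Sums (fun i => E i × K i)
      (r * Fintype.card ((i : ι) → K i) + Fintype.card A * ρ) := by
  classical
  set f : ((i : ι) → K i) → A := fun x => ∑ i, φ i (x i) with hf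
  obtain ⟨p, hp⟩ := exists_genl (E := E) f r (fun x => by
    obtain ⟨N, k, hinj, e, he⟩ := hk x
    exact exists_spec f x hL k hinj e he)
  have hspan := span_labl f r p hp
  have hT0 : (∑ l : ((i : ι) → K i) × Fin r, sg (jp (p (f l.1) l.2) l.1) :
      Ten fun i => E i × K i) ∈
      Sums (fun i => E i × K i) (Fintype.card A * ρ) := by
    have h3 : (∑ l : ((i : ι) → K i) × Fin r, sg (jp (p (f l.1) l.2) l.1) :
        Ten fun i => E i × K i) = fun y : (i : ι) → E i × K i =>
        (fun a => (∑ j, sg (p a j) : Ten E)) (∑ i, φ i (y i).2) (fun i => (y i).1) := by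
      funext y
      rw [sum_labl]
    rw [h3]
    exact labl_mem_Sums h2 φ hρ fun a => (∑ j, sg (p a j) : Ten E)
  have h4 := all_mem_gen (fun l : ((i : ι) → K i) × Fin r =>
    jp (p (f l.1) l.2) l.1) hspan hT0 T
  rwa [Fintype.card_prod, Fintype.card_fin, mul_comm _ r] at h4

end

end Pool.Agent.H19.TR
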