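import Pool.Agent.H93.TR.Gen

/-!
MP_b12e0e_ag (helper19): lines of product tensors.
-/

set_option autoImplicit false

open Set Function Module Pool.Agent.H93.TR

namespace Pool.Agent.H19.TR

/-- `Lines E Λ`: there are `Λ i` lines of product tensors in direction `i` (the factor `i` being
free) which together span everything. -/
def Lines {ι : Type} [Fintype ι] [DecidableEq ι] (E : ι → Type) [∀ i, DecidableEq (E i)]
    (Λ : ι → Type) : Prop :=
  ∃ q : (i : ι) → Λ i → Par E, ∀ z : (i : ι) → E i, sg (bs z) ∈ Submodule.span ℝ
    {S : Ten E | ∃ (i : ι) (j : Λ i) (h : E i → ℝ), S = sg (update (q i j) i h)}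

end Pool.Agent.H19.TR
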