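import Pool.Agent.H19.TR.Upper

/-!
MP_b12e0e_ag (helper19): the lower bounds for the typical ranks.
-/

set_option autoImplicit false

open Set Function Module

open scoped ContDiff Topology

set_option maxHeartbeats 400000

namespace Pool.Agent.H19.TR

section
variable {ι : Type} [Fintype ι] [DecidableEq ι] {α : ι → Type} [∀ i, Fintype (α i)]
  [∀ i, DecidableEq (α i)]

omit [∀ i, DecidableEq (α i)] in
theorem finrank_Ten : finrank ℝ (Ten α) = Fintype.card ((i : ι) → α i) := by
  simp [Ten]

omit [∀ i, DecidableEq (α i)] in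
/-- slices of generic tensors are as independent as possible -/
theorem dense_indep {β : Type} [Fintype β] :
    Dense {T : β → Ten α | min (Fintype.card ((i : ι) → α i)) (Fintype.card β) ≤
      finrank ℝ (Submodule.span ℝ (range T))} := by
  classical
  have h := dense_step (κ := β) (Z := Ten α) (E := Ten α) (fun _ z => z)
    (fun _ H hH => dense_vec H hH) (fun _ => ⊥) 0 Finset.univ (fun _ _ _ _ => rfl) (by simp)
  refine h.mono fun T hT => ?_
  have h1 : min (finrank ℝ (Ten α)) (0 + (Finset.univ : Finset β).card) ≤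
    finrank ℝ ((⊥ : Submodule ℝ (Ten α)) ⊔ Submodule.span ℝ
      ((fun l => T l) '' ((Finset.univ : Finset β) : Set β)) : Submodule ℝ (Ten α)) := hT
  rw [bot_sup_eq, Finset.coe_univ, image_univ, zero_add, Finset.card_univ, finrank_Ten] at h1
  exact h1

omit [DecidableEq ι] [∀ i, Fintype (α i)] [∀ i, DecidableEq (α i)] in
theorem finrank_le_of_RLE [Finite ((i : ι) → α i)] {β : Type} {r : ℕ} {T : β → Ten α}
    (h : T ∈ RLE α β r) : finrank ℝ (Submodule.span ℝ (range T)) ≤ r := by
  obtain ⟨y, hy⟩ := h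
  have h1 : Submodule.span ℝ (range T) ≤ Submodule.span ℝ (range fun k => sg (y k)) := by
    rw [Submodule.span_le]
    rintro _ ⟨j, rfl⟩
    exact hy j
  have h2 := finrank_range_le_card (R := ℝ) (fun k => sg (y k))
  rw [Fintype.card_fin] at h2
  exact (Submodule.finrank_mono h1).trans h2

omit [DecidableEq ι] [∀ i, Fintype (α i)] in
/-- the rank of a tensor is at most the dimension of the space of slices -/
theorem RLE_univ [Fintype ((i : ι) → α i)] {β : Type} :
    RLE α β (Fintype.card ((i : ι) → α i)) = univ := by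
  classical
  rw [eq_univ_iff_forall]
  intro T
  let e : Fin (Fintype.card ((i : ι) → α i)) ≃ ((i : ι) → α i) :=
    (Fintype.equivFin _).symm
  refine ⟨fun k i => Pi.single (e k i) 1, fun j => ?_⟩
  have h1 : ∀ m : (i : ι) → α i,
      sg (fun i => (Pi.single (m i) 1 : α i → ℝ)) = (Pi.single m 1 : Ten α) := by
    intro m
    funext m'
    unfold sg
    by_cases h : m' = m
    · subst h
      simp
    · obtain ⟨i, hi⟩ := Function.ne_iff.1 h
      rw [Pi.single_eq_of_ne h]
      exact Finset.prod_eq_zero (Finset.mem_univ i) (Pi.single_eq_of_ne hi _)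
  have h2 : T j = ∑ m, T j m • (Pi.single m (1 : ℝ) : Ten α) := by
    funext m'
    simp [Finset.sum_apply, Pi.single_apply]
  rw [h2]
  refine Submodule.sum_mem _ fun m _ => Submodule.smul_mem _ _ (Submodule.subset_span ?_)
  refine ⟨e.symm m, ?_⟩
  show sg (fun i => Pi.single (e (e.symm m) i) 1) = _
  rw [e.apply_symm_apply, h1]

/-- normalised parameters -/
def nrm (m : (i : ι) → α i) (w : ((i : ι) × {c : α i // c ≠ m i}) → ℝ) : Par α :=
  fun i c => if h : c = m i then 1 else w ⟨i, c, h⟩

/-- the charts -/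
def chart {β : Type} {r : ℕ} (μ : Fin r → (i : ι) → α i)
    (x : (k : Fin r) → (((i : ι) × {c : α i // c ≠ μ k i}) → ℝ) × (β → ℝ)) : β → Ten α :=
  fun j => ∑ k, (x k).2 j • sg (nrm (μ k) (x k).1)

omit [DecidableEq ι] in
theorem contDiff_nrm (m : (i : ι) → α i) : ContDiff ℝ ω (nrm (α := α) m) := by
  rw [contDiff_pi]
  intro i
  rw [contDiff_pi]
  intro c
  unfold nrm
  by_cases h : c = m i
  · simp only [dif_pos h]
    exact contDiff_const
  · simp only [dif_neg h]
    exact contDiff_apply ℝ ℝ _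

/-- the domains of the charts -/
abbrev Dom (α : ι → Type) [∀ i, Fintype (α i)] (β : Type) {r : ℕ}
    (μ : Fin r → (i : ι) → α i) : Type :=
  (k : Fin r) → (((i : ι) × {c : α i // c ≠ μ k i}) → ℝ) × (β → ℝ)

theorem contDiff_chart {β : Type} [Fintype β] {r : ℕ} (μ : Fin r → (i : ι) → α i) :
    ContDiff ℝ ω (chart (α := α) (β := β) μ) := by
  rw [contDiff_pi]
  intro j
  unfold chart
  refine ContDiff.sum fun k _ => ?_
  have h1 : ContDiff ℝ ω (fun x : Dom α β μ => x k) := contDiff_pi.mp contDiff_id k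
  have h2 : ContDiff ℝ ω (fun x : Dom α β μ => (x k).2 j) :=
    (contDiff_apply ℝ ℝ j).comp (contDiff_snd.comp h1)
  have h3 : ContDiff ℝ ω (fun x : Dom α β μ => sg (nrm (μ k) (x k).1)) :=
    contDiff_sg.comp ((contDiff_nrm (μ k)).comp (contDiff_fst.comp h1))
  exact h2.smul h3

theorem finrank_Dom {β : Type} [Fintype β] {r : ℕ} (μ : Fin r → (i : ι) → α i) :
    finrank ℝ (Dom α β μ) = r * (sdim α + Fintype.card β) := by
  unfold Dom
  rw [Module.finrank_pi_fintype]
  have h1 : ∀ k : Fin r, finrank ℝ ((((i : ι) × {c : α i // c ≠ μ k i}) → ℝ) × (β → ℝ)) =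
      sdim α + Fintype.card β := by
    intro k
    rw [Module.finrank_prod, Module.finrank_fintype_fun_eq_card,
      Module.finrank_fintype_fun_eq_card, Fintype.card_sigma, sdim]
    congr 1
    refine Finset.sum_congr rfl fun i _ => ?_
    rw [Fintype.card_subtype_compl, Fintype.card_subtype_eq]
  rw [Finset.sum_congr rfl fun k _ => h1 k, Finset.sum_const, Finset.card_univ,
    Fintype.card_fin, smul_eq_mul]

omit [DecidableEq ι] [∀ i, Fintype (α i)] in
theorem exists_nrm [∀ i, Nonempty (α i)] (y : Par α) :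
    ∃ (m : (i : ι) → α i) (w : ((i : ι) × {c : α i // c ≠ m i}) → ℝ) (t : ℝ),
      sg y = t • sg (nrm m w) := by
  have hm : ∀ i, ∃ c : α i, y i c = 0 → y i = 0 := by
    intro i
    by_cases h : y i = 0
    · exact ⟨Classical.arbitrary _, fun _ => h⟩
    · obtain ⟨c, hc⟩ := Function.ne_iff.1 h
      exact ⟨c, fun h' => absurd h' hc⟩
  choose m hm using hm
  refine ⟨m, fun q => y q.1 q.2.1 / y q.1 (m q.1), ∏ i, y i (m i), ?_⟩
  funext m'
  rw [Pi.smul_apply, smul_eq_mul]
  unfold sg
  rw [← Finset.prod_mul_distrib]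
  refine Finset.prod_congr rfl fun i _ => ?_
  unfold nrm
  by_cases h0 : y i (m i) = 0
  · rw [h0, zero_mul, hm i h0]
    rfl
  · by_cases h : m' i = m i
    · rw [dif_pos h, h, mul_one]
    · rw [dif_neg h]
      field_simp

theorem RLE_subset [∀ i, Nonempty (α i)] {β : Type} [Fintype β] (r : ℕ) :
    RLE α β r ⊆ ⋃ μ : Fin r → (i : ι) → α i, range (chart (α := α) (β := β) μ) := by
  rintro T ⟨y, hy⟩
  choose m w t hmw using fun k => exists_nrm (y k)
  choose g hg using fun j => (Submodule.mem_span_range_iff_exists_fun ℝ).1 (hy j)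
  rw [mem_iUnion]
  refine ⟨m, fun k => (w k, fun j => g j k * t k), ?_⟩
  funext j
  unfold chart
  rw [← hg j]
  refine Finset.sum_congr rfl fun k _ => ?_
  show (g j k * t k) • sg (nrm (m k) (w k)) = g j k • sg (y k)
  rw [hmw k, smul_smul]

theorem dense_compl_RLE [∀ i, Nonempty (α i)] {β : Type} [Fintype β] (r : ℕ)
    (h : r * (sdim α + Fintype.card β) < Fintype.card ((i : ι) → α i) * Fintype.card β) :
    Dense (RLE α β r)ᶜ := by
  apply dense_compl_of_dimH_lt_finrank
  have h1 : finrank ℝ (β → Ten α) = Fintype.card ((i : ι) → α i) * Fintype.card β := by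
    rw [Module.finrank_pi_fintype, Finset.sum_const, finrank_Ten, Finset.card_univ, smul_eq_mul,
      mul_comm]
  have h2 : dimH (RLE α β r) ≤ (r * (sdim α + Fintype.card β) : ℕ) := by
    refine (dimH_mono (RLE_subset r)).trans ?_
    rw [dimH_iUnion]
    refine iSup_le fun μ => ?_
    have h3 := ContDiff.dimH_range_le
      ((contDiff_chart (α := α) (β := β) μ).of_le (m := 1) (by exact_mod_cast le_top))
    rwa [finrank_Dom] at h3
  refine lt_of_le_of_lt h2 ?_
  rw [h1]
  exact_mod_cast h

end

end Pool.Agent.H19.TR
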