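import Pool.Agent.H19.TR.Gen

/-!
MP_b12e0e_ag (helper19): the Segre map, its tangent spaces, generic tensors.
-/

set_option autoImplicit false

open Set Function Module

open scoped ContDiff

namespace Pool.Agent.H19.TR

/-- parameters of rank one tensors -/
abbrev Par {ι : Type} (α : ι → Type) : Type := (i : ι) → α i → ℝ

/-- tensors -/
abbrev Ten {ι : Type} (α : ι → Type) : Type := ((i : ι) → α i) → ℝ

section
variable {ι : Type} [Fintype ι] [DecidableEq ι] {α : ι → Type} [∀ i, Fintype (α i)]
  [∀ i, DecidableEq (α i)]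

/-- the rank one tensor with parameter `a` -/
def sg (a : Par α) : Ten α := fun m => ∏ i, a i (m i)

omit [∀ i, DecidableEq (α i)] in
theorem contDiff_sg : ContDiff ℝ ω (sg : Par α → Ten α) := by
  rw [contDiff_pi]
  intro m
  unfold sg
  refine contDiff_prod fun i _ => ?_
  exact (ContinuousLinearMap.contDiff
    ((ContinuousLinearMap.proj (R := ℝ) (φ := fun _ : α i => ℝ) (m i)).comp
      (ContinuousLinearMap.proj (R := ℝ) (φ := fun i => α i → ℝ) i)))

omit [∀ i, Fintype (α i)] [∀ i, DecidableEq (α i)] in
theorem sg_update (a : Par α) (i : ι) (h : α i → ℝ) (m : (i : ι) → α i) :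
    sg (update a i h) m = h (m i) * ∏ l ∈ Finset.univ.erase i, a l (m l) := by
  unfold sg
  rw [← Finset.mul_prod_erase Finset.univ _ (Finset.mem_univ i), update_self]
  congr 1
  refine Finset.prod_congr rfl fun l hl => ?_
  rw [update_of_ne (Finset.ne_of_mem_erase hl)]

omit [∀ i, DecidableEq (α i)] in
theorem sg_mem_range (a : Par α) (i : ι) (h : α i → ℝ) :
    sg (update a i h) ∈ LinearMap.range (fderiv ℝ (sg : Par α → Ten α) a).toLinearMap := by
  refine ⟨Pi.single i h, ?_⟩
  have h1 : HasFDerivAt (sg : Par α → Ten α) (fderiv ℝ sg a) a :=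
    (contDiff_sg.differentiable (by simp)).differentiableAt.hasFDerivAt
  -- the path `t ↦ a + t • single i h`
  have h2 : HasDerivAt (fun t : ℝ => a + t • (Pi.single i h : Par α)) (Pi.single i h) 0 := by
    have := ((hasDerivAt_id (0 : ℝ)).smul_const (Pi.single i h : Par α)).const_add a
    simpa using this
  have h3 : HasDerivAt (fun t : ℝ => sg (a + t • (Pi.single i h : Par α)))
      (fderiv ℝ sg a (Pi.single i h)) 0 := by
    have h1' : HasFDerivAt (sg : Par α → Ten α) (fderiv ℝ sg a)
        ((fun t : ℝ => a + t • (Pi.single i h : Par α)) 0) := by simpa using h1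
    exact h1'.comp_hasDerivAt 0 h2
  have h4 : (fun t : ℝ => sg (a + t • (Pi.single i h : Par α))) =
      fun t : ℝ => sg a + t • sg (update a i h) := by
    funext t
    have h5 : a + t • (Pi.single i h : Par α) = update a i (a i + t • h) := by
      funext l
      by_cases hl : l = i
      · subst hl; simp
      · simp [update_of_ne hl, Pi.single_eq_of_ne hl]
    rw [h5]
    funext m
    simp only [Pi.add_apply, Pi.smul_apply, smul_eq_mul, sg_update]
    have h6 : sg a m = a i (m i) * ∏ l ∈ Finset.univ.erase i, a l (m l) := by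
      rw [← sg_update, update_eq_self]
    rw [h6]
    ring
  have h7 : HasDerivAt (fun t : ℝ => sg a + t • sg (update a i h)) (sg (update a i h)) 0 := by
    have := ((hasDerivAt_id (0 : ℝ)).smul_const (sg (update a i h))).const_add (sg a)
    simpa using this
  rw [h4] at h3
  exact h3.unique h7

/-- the number `s = ∑ (card (α i) - 1)` -/
def sdim {ι : Type} [Fintype ι] (α : ι → Type) [∀ i, Fintype (α i)] : ℕ :=
  ∑ i, (Fintype.card (α i) - 1)

/-- the tangent spaces have dimension at least `s + 1` at generic points -/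
theorem finrank_tangent [Nonempty ι] (m0 : (i : ι) → α i) (a : Par α)
    (ha : ∀ i, a i (m0 i) ≠ 0) :
    sdim α + 1 ≤ finrank ℝ
      (LinearMap.range (fderiv ℝ (sg : Par α → Ten α) a).toLinearMap) := by
  let v : Option ((i : ι) × {c : α i // c ≠ m0 i}) → Ten α := fun o =>
    o.elim (sg a) fun q => sg (update a q.1 (Pi.single q.2.1 1))
  have hv : ∀ o, v o ∈ LinearMap.range (fderiv ℝ (sg : Par α → Ten α) a).toLinearMap := by
    intro o
    cases o with
    | none =>
      have i : ι := Classical.arbitrary ι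
      have := sg_mem_range a i (a i)
      rwa [update_eq_self] at this
    | some q => exact sg_mem_range a q.1 _
  have hval0 : ∀ q : (i : ι) × {c : α i // c ≠ m0 i}, v (some q) m0 = 0 := by
    intro q
    show sg (update a q.1 (Pi.single q.2.1 1)) m0 = 0
    rw [sg_update, Pi.single_eq_of_ne q.2.2.symm, zero_mul]
  have hval : ∀ q q' : (i : ι) × {c : α i // c ≠ m0 i}, q ≠ q' →
      v (some q) (update m0 q'.1 q'.2.1) = 0 := by
    rintro ⟨i, c, hc⟩ ⟨i', c', hc'⟩ hne
    show sg (update a i (Pi.single c 1)) (update m0 i' c') = 0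
    rw [sg_update]
    by_cases hi : i = i'
    · subst hi
      have hcc : c' ≠ c := by
        rintro rfl
        exact hne rfl
      rw [update_self, Pi.single_eq_of_ne hcc, zero_mul]
    · rw [update_of_ne hi, Pi.single_eq_of_ne hc.symm, zero_mul]
  have hval1 : ∀ q : (i : ι) × {c : α i // c ≠ m0 i},
      v (some q) (update m0 q.1 q.2.1) ≠ 0 := by
    rintro ⟨i, c, hc⟩
    show sg (update a i (Pi.single c 1)) (update m0 i c) ≠ 0
    rw [sg_update, update_self, Pi.single_eq_same, one_mul]
    refine Finset.prod_ne_zero_iff.2 fun l hl => ?_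
    rw [update_of_ne (Finset.ne_of_mem_erase hl)]
    exact ha l
  have hnone : v none m0 ≠ 0 := by
    show sg a m0 ≠ 0
    unfold sg
    exact Finset.prod_ne_zero_iff.2 fun l _ => ha l
  have hli : LinearIndependent ℝ v := by
    rw [Fintype.linearIndependent_iff]
    intro g hg
    have h0 : g none = 0 := by
      have h1 := congrFun hg m0
      rw [Fintype.sum_option] at h1
      simp only [Pi.add_apply, Pi.smul_apply, Finset.sum_apply, smul_eq_mul, hval0, mul_zero,
        Finset.sum_const_zero, add_zero, Pi.zero_apply] at h1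
      exact (mul_eq_zero.1 h1).resolve_right hnone
    intro o
    cases o with
    | none => exact h0
    | some q =>
      have h1 := congrFun hg (update m0 q.1 q.2.1)
      rw [Fintype.sum_option, h0, zero_smul, zero_add, Finset.sum_apply,
        Finset.sum_eq_single q] at h1
      · simp only [Pi.smul_apply, smul_eq_mul, Pi.zero_apply] at h1
        exact (mul_eq_zero.1 h1).resolve_right (hval1 q)
      · intro q' _ hq'
        rw [Pi.smul_apply, hval q' q hq', smul_zero]
      · intro h
        exact absurd (Finset.mem_univ _) h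
  have hcard : Fintype.card (Option ((i : ι) × {c : α i // c ≠ m0 i})) = sdim α + 1 := by
    rw [Fintype.card_option, Fintype.card_sigma, sdim]
    congr 1
    refine Finset.sum_congr rfl fun i _ => ?_
    rw [Fintype.card_subtype_compl, Fintype.card_subtype_eq]
  rw [← hcard, ← finrank_span_eq_card hli]
  apply Submodule.finrank_mono
  rw [Submodule.span_le]
  rintro _ ⟨o, rfl⟩
  exact hv o

omit [Fintype ι] [∀ i, Fintype (α i)] [∀ i, DecidableEq (α i)] in
/-- proper subspaces miss most rank one tensors -/
theorem dense_sg [Fintype ι] [∀ i, Fintype (α i)] [∀ i, DecidableEq (α i)]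
    (H : Submodule ℝ (Ten α)) (hH : H ≠ ⊤) :
    Dense {a : Par α | sg a ∉ H} := by
  obtain ⟨ℓ, hℓ, hℓH⟩ := exists_functional H hH
  obtain ⟨m, hm⟩ : ∃ m : (i : ι) → α i, ℓ (Pi.single m 1) ≠ 0 := by
    by_contra hcon
    push Not at hcon
    apply hℓ
    ext x
    have h1 : x = ∑ m, x m • (Pi.single m (1 : ℝ) : Ten α) := by
      funext m'
      simp [Finset.sum_apply, Pi.single_apply]
    rw [h1, map_sum]
    simp [hcon]
  have h1 : sg (fun i => (Pi.single (m i) 1 : α i → ℝ)) = (Pi.single m 1 : Ten α) := by
    funext m'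
    unfold sg
    by_cases h : m' = m
    · subst h
      simp
    · obtain ⟨i, hi⟩ := Function.ne_iff.1 h
      rw [Pi.single_eq_of_ne h]
      exact Finset.prod_eq_zero (Finset.mem_univ i) (Pi.single_eq_of_ne hi _)
  have h2 : ContDiff ℝ ω (fun a : Par α => ℓ (sg a)) := ℓ.contDiff.comp contDiff_sg
  refine (dense_ne_zero _ h2 (fun i => (Pi.single (m i) 1 : α i → ℝ)) (by rw [h1]; exact hm)).mono
    fun a (ha : ℓ (sg a) ≠ 0) (hmem : sg a ∈ H) => ha (hℓH _ hmem)

/-- proper subspaces miss most vectors -/
theorem dense_vec {E : Type} [NormedAddCommGroup E] [NormedSpace ℝ E] [FiniteDimensional ℝ E]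
    (H : Submodule ℝ E) (hH : H ≠ ⊤) : Dense {x : E | x ∉ H} := by
  obtain ⟨ℓ, hℓ, hℓH⟩ := exists_functional H hH
  obtain ⟨x, hx⟩ : ∃ x, ℓ x ≠ 0 := by
    by_contra hcon
    push Not at hcon
    apply hℓ
    ext x
    simpa using hcon x
  exact (dense_ne_zero _ ℓ.contDiff x hx).mono
    fun a (ha : ℓ a ≠ 0) (hmem : a ∈ H) => ha (hℓH _ hmem)

end

end Pool.Agent.H19.TR
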