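import Pool.Agent.H19.TR.Lower

/-!
MP_b12e0e_ag (helper19): tensors of order `n` with a distinguished factor `i₀`.
-/

set_option autoImplicit false

open Set Function Module

namespace Pool.Agent.H19.TR

section
variable {n : ℕ} (d : Fin n → ℕ) (i₀ : Fin n)

/-- the other factors -/
abbrev Oth : {j : Fin n // j ≠ i₀} → Type := fun j => Fin (d j.1)

/-- splitting an index -/
def spl : ((j : Fin n) → Fin (d j)) ≃ Fin (d i₀) × ((j : {j : Fin n // j ≠ i₀}) → Fin (d j.1)) :=
  Equiv.piSplitAt i₀ (fun j => Fin (d j))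

theorem spl_symm_self (j : Fin (d i₀)) (m : (j : {j : Fin n // j ≠ i₀}) → Fin (d j.1)) :
    (spl d i₀).symm (j, m) i₀ = j := by
  simp [spl, Equiv.piSplitAt]

theorem spl_symm_ne (j : Fin (d i₀)) (m : (j : {j : Fin n // j ≠ i₀}) → Fin (d j.1))
    (i : Fin n) (hi : i ≠ i₀) : (spl d i₀).symm (j, m) i = m ⟨i, hi⟩ := by
  simp [spl, Equiv.piSplitAt, hi]

theorem prod_split (f : (i : Fin n) → Fin (d i) → ℝ) (x : (i : Fin n) → Fin (d i)) :
    ∏ i, f i (x i) = f i₀ (x i₀) * ∏ i : {j : Fin n // j ≠ i₀}, f i.1 (x i.1) := by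
  rw [← Finset.mul_prod_erase Finset.univ _ (Finset.mem_univ i₀)]
  congr 1
  exact Finset.prod_subtype (Finset.univ.erase i₀) (p := fun j => j ≠ i₀) (by simp)
    (fun i => f i (x i))

/-- slices with respect to the factor `i₀` -/
def slices : (((i : Fin n) → Fin (d i)) → ℝ) ≃ₜ (Fin (d i₀) → Ten (Oth d i₀)) where
  toFun T j m := T ((spl d i₀).symm (j, m))
  invFun S x := S (x i₀) (fun i => x i.1)
  left_inv T := by
    funext x
    have : (spl d i₀).symm (x i₀, fun i => x i.1) = x := by
      have h1 : (x i₀, fun i : {j : Fin n // j ≠ i₀} => x i.1) = spl d i₀ x := rfl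
      rw [h1, Equiv.symm_apply_apply]
    show T ((spl d i₀).symm (x i₀, fun i => x i.1)) = T x
    rw [this]
  right_inv S := by
    funext j m
    show S ((spl d i₀).symm (j, m) i₀) (fun i => (spl d i₀).symm (j, m) i.1) = S j m
    rw [spl_symm_self]
    congr 1
    funext i
    exact spl_symm_ne d i₀ j m i.1 i.2
  continuous_toFun := by
    refine continuous_pi fun j => continuous_pi fun m => ?_
    exact continuous_apply _
  continuous_invFun := by
    refine continuous_pi fun x => ?_
    exact (continuous_apply _).comp (continuous_apply _)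

/-- being a sum of `r` products, in terms of the slices -/
theorem slices_mem_RLE (T : ((i : Fin n) → Fin (d i)) → ℝ) (r : ℕ) :
    slices d i₀ T ∈ RLE (Oth d i₀) (Fin (d i₀)) r ↔
      ∃ v : Fin r → (i : Fin n) → Fin (d i) → ℝ,
        T = fun x => ∑ k : Fin r, ∏ i : Fin n, v k i (x i) := by
  constructor
  · rintro ⟨y, hy⟩
    choose g hg using fun j => (Submodule.mem_span_range_iff_exists_fun ℝ).1 (hy j)
    refine ⟨fun k => (Equiv.piSplitAt i₀ (fun i => Fin (d i) → ℝ)).symm
      (fun j => g j k, y k), ?_⟩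
    funext x
    have h1 : T x = slices d i₀ T (x i₀) (fun i => x i.1) := by
      have := congrFun ((slices d i₀).left_inv T) x
      exact this.symm
    rw [h1, ← hg (x i₀), Finset.sum_apply]
    refine Finset.sum_congr rfl fun k _ => ?_
    rw [prod_split d i₀, Pi.smul_apply, smul_eq_mul]
    have h2 : (Equiv.piSplitAt i₀ (fun i => Fin (d i) → ℝ)).symm
      (fun j => g j k, y k) i₀ = fun j => g j k := by
      simp [Equiv.piSplitAt]
    rw [h2]
    congr 1
    unfold sg
    refine Finset.prod_congr rfl fun i _ => ?_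
    have h3 : (Equiv.piSplitAt i₀ (fun i => Fin (d i) → ℝ)).symm
      (fun j => g j k, y k) i.1 = y k i := by
      simp [Equiv.piSplitAt, i.2]
    rw [h3]
  · rintro ⟨v, rfl⟩
    refine ⟨fun k i => v k i.1, fun j => ?_⟩
    have h1 : slices d i₀ (fun x => ∑ k : Fin r, ∏ i : Fin n, v k i (x i)) j =
        ∑ k, v k i₀ j • sg (fun i : {j : Fin n // j ≠ i₀} => v k i.1) := by
      funext m
      show ∑ k : Fin r, ∏ i : Fin n, v k i ((spl d i₀).symm (j, m) i) = _
      rw [Finset.sum_apply]
      refine Finset.sum_congr rfl fun k _ => ?_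
      rw [prod_split d i₀, spl_symm_self, Pi.smul_apply, smul_eq_mul]
      congr 1
      unfold sg
      refine Finset.prod_congr rfl fun i _ => ?_
      rw [spl_symm_ne d i₀ j m i.1 i.2]
    rw [h1]
    exact Submodule.sum_mem _ fun k _ => Submodule.smul_mem _ _ (Submodule.subset_span ⟨k, rfl⟩)

theorem card_Oth : Fintype.card ((j : {j : Fin n // j ≠ i₀}) → Oth d i₀ j) =
    ∏ i ∈ Finset.univ.erase i₀, d i := by
  rw [Fintype.card_pi, Finset.prod_subtype (Finset.univ.erase i₀) (p := fun j => j ≠ i₀)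
    (by simp) d]
  exact Finset.prod_congr rfl fun i _ => Fintype.card_fin _

theorem sdim_Oth : sdim (Oth d i₀) = ∑ i ∈ Finset.univ.erase i₀, (d i - 1) := by
  unfold sdim
  rw [Finset.sum_subtype (Finset.univ.erase i₀) (p := fun j => j ≠ i₀)
    (by simp) (fun i => d i - 1)]
  exact Finset.sum_congr rfl fun i _ => by rw [Fintype.card_fin]

end

/-- products are larger than the sums of the entries minus one -/
theorem sum_lt_prod {ι : Type} (S : Finset ι) (d : ι → ℕ) (hd : ∀ i, 1 ≤ d i) :
    ∑ i ∈ S, (d i - 1) + 1 ≤ ∏ i ∈ S, d i := by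
  classical
  induction S using Finset.induction_on with
  | empty => simp
  | insert i S hi ih =>
    rw [Finset.sum_insert hi, Finset.prod_insert hi]
    obtain ⟨e, he⟩ : ∃ e, d i = e + 1 := ⟨d i - 1, by have := hd i; omega⟩
    rw [he, Nat.add_sub_cancel]
    have h1 : 1 ≤ ∏ i ∈ S, d i := le_trans (Nat.le_add_left 1 _) ih
    nlinarith

end Pool.Agent.H19.TR
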