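import Pool.Agent.H93.TR.Upper

/-!
MP_b12e0e_ag (helper19): Vandermonde vectors are product vectors.
-/

set_option autoImplicit false

open Set Function Module Pool.Agent.H93.TR

namespace Pool.Agent.H19.TR

section
variable {J : Type} [Fintype J] [DecidableEq J] {E : J → Type} [∀ j, Fintype (E j)]
  [∀ j, DecidableEq (E j)]

/-- There are product tensors, indexed by the natural numbers, such that any sufficiently many
different ones span everything. -/
theorem exists_vdm (J : Type) [Fintype J] [DecidableEq J] (E : J → Type) [∀ j, Fintype (E j)]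
    [∀ j, DecidableEq (E j)] :
    ∃ x : ℕ → Par E, ∀ s : Finset ℕ, Fintype.card ((j : J) → E j) ≤ s.card →
      ∀ z : (j : J) → E j, sg (bs z) ∈ Submodule.span ℝ ((fun n => (sg (x n) : Ten E)) '' s) := by
  classical
  let e : J ≃ Fin (Fintype.card J) := Fintype.equivFin J
  let n : Fin (Fintype.card J) → ℕ := fun k => Fintype.card (E (e.symm k))
  let ε : (j : J) → E j ≃ Fin (Fintype.card (E j)) := fun j => Fintype.equivFin (E j)
  let W : Fin (Fintype.card J) → ℕ := fun i => ∏ j, n (Fin.castLE i.is_lt.le j)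
  let Φ : ((j : J) → E j) ≃ ((k : Fin (Fintype.card J)) → Fin (n k)) :=
    (Equiv.piCongrRight ε).trans
      (Equiv.piCongrLeft' (fun j => Fin (Fintype.card (E j))) e)
  let val : ((j : J) → E j) ≃ Fin (∏ k, n k) := Φ.trans finPiFinEquiv
  let x : ℕ → Par E := fun τ j c => (τ : ℝ) ^ ((ε j c : ℕ) * W (e j))
  have hval : ∀ f : (j : J) → E j, (val f : ℕ) = ∑ j, (ε j (f j) : ℕ) * W (e j) := by
    intro f
    have h1 : (val f : ℕ) = ∑ k, (ε (e.symm k) (f (e.symm k)) : ℕ) * W k := rfl
    rw [h1, ← Equiv.sum_comp e.symm (fun j => (ε j (f j) : ℕ) * W (e j))]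
    refine Finset.sum_congr rfl fun k _ => ?_
    rw [Equiv.apply_symm_apply]
  have hsg : ∀ (τ : ℕ) (f : (j : J) → E j), sg (x τ) f = (τ : ℝ) ^ (val f : ℕ) := by
    intro τ f
    rw [hval, ← Finset.prod_pow_eq_pow_sum]
    rfl
  refine ⟨x, fun s hs z => ?_⟩
  have hM : Fintype.card ((j : J) → E j) = ∏ k, n k := by
    rw [Fintype.card_congr val, Fintype.card_fin]
  rw [hM] at hs
  obtain ⟨t, hts, ht⟩ := Finset.exists_subset_card_eq hs
  let o : Fin (∏ k, n k) ↪o ℕ := t.orderEmbOfFin ht
  have hos : ∀ k, o k ∈ s := fun k => hts (Finset.orderEmbOfFin_mem t ht k)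
  set V : Matrix (Fin (∏ k, n k)) (Fin (∏ k, n k)) ℝ :=
    Matrix.vandermonde fun k => ((o k : ℕ) : ℝ) with hV
  have hdet : V.det ≠ 0 := Matrix.det_vandermonde_ne_zero_iff.2
    fun a b h => o.injective (Nat.cast_injective h)
  have hinv : V⁻¹ * V = 1 := Matrix.nonsing_inv_mul _ (isUnit_iff_ne_zero.2 hdet)
  have h4 : (sg (bs z) : Ten E) = ∑ k, V⁻¹ (val z) k • sg (x (o k)) := by
    funext f
    have h5 := congrFun (congrFun hinv (val z)) (val f)
    rw [Matrix.mul_apply, Matrix.one_apply] at h5
    rw [sg_bs_apply, Finset.sum_apply]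
    have h6 : (if z = f then (1 : ℝ) else 0) = if val z = val f then 1 else 0 := by
      by_cases h : z = f
      · rw [if_pos h, if_pos (congrArg val h)]
      · rw [if_neg h, if_neg (fun h' => h (val.injective h'))]
    rw [h6, ← h5]
    refine Finset.sum_congr rfl fun k _ => ?_
    rw [Pi.smul_apply, hsg, hV, Matrix.vandermonde_apply]
    rfl
  rw [h4]
  exact Submodule.sum_mem _ fun k _ => Submodule.smul_mem _ _
    (Submodule.subset_span ⟨o k, hos k, rfl⟩)

/-- the bipartite graph: the edges `n < a * ξ`, where `n` joins `n / ξ` and `n % b` -/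
theorem card_edges {a b ξ η : ℕ} (hξ : ξ ≤ b) (hη : b * η ≤ a * ξ) {α β : ℕ} (hα : α < a)
    (hβ : β < b) (hξ0 : 0 < ξ) :
    ξ + η ≤ ((Finset.range (a * ξ)).filter fun n => n / ξ = α ∨ n % b = β).card + 1 := by
  classical
  set X : Finset ℕ := (Finset.range ξ).image fun t => α * ξ + t with hX
  set Y : Finset ℕ := (Finset.range η).image fun k => k * b + β with hY
  have hXc : X.card = ξ := by
    rw [hX, Finset.card_image_of_injective _ (fun a b h => by simpa using h), Finset.card_range]
  have hYc : Y.card = η := by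
    rw [hY, Finset.card_image_of_injOn, Finset.card_range]
    intro k _ k' _ h
    have h1 : k * b + β = k' * b + β := h
    have h2 : k * b = k' * b := by omega
    exact Nat.eq_of_mul_eq_mul_right (by omega) h2
  have hsub : X ∪ Y ⊆ (Finset.range (a * ξ)).filter fun n => n / ξ = α ∨ n % b = β := by
    intro n hn
    rw [Finset.mem_filter, Finset.mem_range]
    rcases Finset.mem_union.1 hn with h | h
    · rw [hX, Finset.mem_image] at h
      obtain ⟨t, ht, rfl⟩ := h
      rw [Finset.mem_range] at ht
      refine ⟨?_, Or.inl ?_⟩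
      · calc α * ξ + t < α * ξ + ξ := by omega
          _ = (α + 1) * ξ := by ring
          _ ≤ a * ξ := Nat.mul_le_mul_right _ hα
      · rw [mul_comm, Nat.mul_add_div hξ0, Nat.div_eq_of_lt ht, add_zero]
    · rw [hY, Finset.mem_image] at h
      obtain ⟨k, hk, rfl⟩ := h
      rw [Finset.mem_range] at hk
      refine ⟨?_, Or.inr ?_⟩
      · calc k * b + β < k * b + b := by omega
          _ = (k + 1) * b := by ring
          _ ≤ η * b := Nat.mul_le_mul_right _ hk
          _ = b * η := mul_comm _ _
          _ ≤ a * ξ := hη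
      · rw [mul_comm, Nat.mul_add_mod, Nat.mod_eq_of_lt hβ]
  have hint : (X ∩ Y).card ≤ 1 := by
    rw [Finset.card_le_one]
    have key : ∀ n ∈ X ∩ Y, ∀ n' ∈ X ∩ Y, n ≤ n' → n = n' := by
      intro n hn n' hn' hle
      rw [Finset.mem_inter] at hn hn'
      have h1 : n % b = β ∧ n' % b = β := by
        constructor
        · have h := hn.2
          rw [hY, Finset.mem_image] at h
          obtain ⟨k, hk, rfl⟩ := h
          rw [mul_comm, Nat.mul_add_mod, Nat.mod_eq_of_lt hβ]
        · have h := hn'.2
          rw [hY, Finset.mem_image] at h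
          obtain ⟨k, hk, rfl⟩ := h
          rw [mul_comm, Nat.mul_add_mod, Nat.mod_eq_of_lt hβ]
      have h2 : n' < n + ξ := by
        have h := hn.1
        have h' := hn'.1
        rw [hX, Finset.mem_image] at h h'
        obtain ⟨t, ht, rfl⟩ := h
        obtain ⟨t', ht', rfl⟩ := h'
        rw [Finset.mem_range] at ht ht'
        omega
      have h3 : n ≡ n' [MOD b] := by
        show n % b = n' % b
        rw [h1.1, h1.2]
      have h4 : b ∣ n' - n := (Nat.modEq_iff_dvd' hle).1 h3
      have h5 : n' - n = 0 := Nat.eq_zero_of_dvd_of_lt h4 (by omega)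
      omega
    intro n hn n' hn'
    rcases le_total n n' with h | h
    · exact key n hn n' hn' h
    · exact (key n' hn' n hn h).symm
  have hun := Finset.card_union_add_card_inter X Y
  have hle := Finset.card_le_card hsub
  omega

end

end Pool.Agent.H19.TR
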