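import Pool.Agent.H93.TR.Gen
import Pool.Agent.H19.TR.Vdm

/-!
MP_b12e0e_ag (helper19): formats with two large factors.
-/

set_option autoImplicit false

open Set Function Module Pool.Agent.H93.TR

namespace Pool.Agent.H19.TR

section
variable {ι : Type} [Fintype ι] [DecidableEq ι] {α : ι → Type} [∀ l, Fintype (α l)]
  [∀ l, DecidableEq (α l)] (J : Finset ι)

/-- a tensor of the factors in `J`, multiplied by basis vectors in the other factors -/
def Ph (y : (l : ι) → α l) : Ten (fun l : {l // l ∈ J} => α l) →ₗ[ℝ] Ten α where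
  toFun F y' := F (fun l => y' l) * (if ∀ l, l ∉ J → y' l = y l then 1 else 0)
  map_add' S S' := by
    funext y'
    exact add_mul _ _ _
  map_smul' c S := by
    funext y'
    exact mul_assoc _ _ _

omit [∀ l, Fintype (α l)] in
theorem Ph_sg (y : (l : ι) → α l) (u : Par (fun l : {l // l ∈ J} => α l)) (Q : Par α)
    (h1 : ∀ (l : ι) (h : l ∈ J), Q l = u ⟨l, h⟩)
    (h2 : ∀ l, l ∉ J → Q l = Pi.single (y l) 1) : Ph J y (sg u) = sg Q := by
  funext y'
  show sg u (fun l => y' l) * (if ∀ l, l ∉ J → y' l = y l then 1 else 0) = sg Q y'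
  have h3 : sg Q y' = (∏ l : {l // l ∈ J}, Q l (y' l)) * ∏ l : {l // l ∉ J}, Q l (y' l) := by
    have h : sg Q y' = ∏ l, Q l (y' l) := rfl
    rw [h, ← Finset.prod_mul_prod_compl J fun l => Q l (y' l)]
    refine congrArg₂ (· * ·) ?_ ?_
    · exact (Finset.prod_coe_sort J fun l => Q l (y' l)).symm
    · exact Finset.prod_subtype Jᶜ (fun l => by simp) fun l => Q l (y' l)
  have h4 : (∏ l : {l // l ∈ J}, Q l (y' l)) = sg u (fun l => y' l) := by
    unfold sg
    exact Finset.prod_congr rfl fun l _ => by rw [h1 l.1 l.2]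
  have h5 : (∏ l : {l // l ∉ J}, Q l (y' l)) =
      if ∀ l, l ∉ J → y' l = y l then (1 : ℝ) else 0 := by
    split_ifs with h
    · refine Finset.prod_eq_one fun l _ => ?_
      rw [h2 l.1 l.2, h l.1 l.2, Pi.single_eq_same]
    · push Not at h
      obtain ⟨l, hl, hne⟩ := h
      refine Finset.prod_eq_zero (Finset.mem_univ (⟨l, hl⟩ : {l // l ∉ J})) ?_
      rw [h2 l hl, Pi.single_eq_of_ne hne]
  rw [h3, h4, h5]

omit [∀ l, Fintype (α l)] in
theorem Ph_bs (y : (l : ι) → α l) :
    Ph J y (sg (bs fun l : {l // l ∈ J} => y l)) = sg (bs y) :=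
  Ph_sg J y _ _ (fun _ _ => rfl) (fun _ _ => rfl)

end

/-- the upper bound for formats with two large factors -/
theorem two_upper {ι : Type} [Fintype ι] [DecidableEq ι] (d : ι → ℕ) (i₀ i₁ : ι)
    (hne : i₀ ≠ i₁) (J : Finset ι) (h0 : i₀ ∉ J) (h1 : i₁ ∉ J) {ξ η : ℕ}
    (hM : ∏ l ∈ J, d l + 1 ≤ ξ + η) (hξ : ξ ≤ d i₁) (hη : d i₁ * η ≤ d i₀ * ξ)
    (T : Ten (fun l => Fin (d l))) :
    T ∈ Sums (fun l => Fin (d l))
      (d i₀ * ξ * (∏ l ∈ ((Finset.univ.erase i₀).erase i₁) \ J, d l + 1)) := by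
  classical
  have hι : Nonempty ι := ⟨i₀⟩
  obtain ⟨x, hx⟩ := exists_vdm {l // l ∈ J} (fun l => Fin (d l))
  have hcardJ : Fintype.card ((l : {l // l ∈ J}) → Fin (d l)) = ∏ l ∈ J, d l := by
    rw [Fintype.card_pi, ← Finset.prod_coe_sort J d]
    exact Finset.prod_congr rfl fun l _ => Fintype.card_fin _
  rw [hcardJ] at hx
  let R : ι → Prop := fun l => l ∉ J ∧ l ≠ i₀ ∧ l ≠ i₁
  let Wd : Type := (l : {l // R l}) → Fin (d l)
  let κ : Type := Fin (d i₀ * ξ) × Wd
  let v0 : κ → Par (fun l => Fin (d l)) := fun p l c =>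
    if l = i₀ then (if (c : ℕ) = p.1 / ξ then 1 else 0)
    else if l = i₁ then (if (c : ℕ) = p.1 % d i₁ then 1 else 0)
    else if h : l ∈ J then x p.1 ⟨l, h⟩ c
    else if h' : R l then (Pi.single (p.2 ⟨l, h'⟩) 1 : Fin (d l) → ℝ) c else 0
  let v1 : Fin (d i₀ * ξ) → Par (fun l => Fin (d l)) := fun n l c =>
    if l = i₀ then (if (c : ℕ) = n / ξ then 1 else 0)
    else if l = i₁ then (if (c : ℕ) = n % d i₁ then 1 else 0)
    else if h : l ∈ J then x n ⟨l, h⟩ c
    else 1
  have hcardW : Fintype.card Wd = ∏ l ∈ ((Finset.univ.erase i₀).erase i₁) \ J, d l := by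
    show Fintype.card ((l : {l // R l}) → Fin (d l)) = _
    rw [Fintype.card_pi, Finset.prod_subtype (((Finset.univ.erase i₀).erase i₁) \ J)
      (p := R) (fun l => by
        show _ ↔ l ∉ J ∧ l ≠ i₀ ∧ l ≠ i₁
        rw [Finset.mem_sdiff, Finset.mem_erase, Finset.mem_erase]
        constructor
        · rintro ⟨⟨ha, hb, -⟩, hc⟩
          exact ⟨hc, hb, ha⟩
        · rintro ⟨ha, hb, hc⟩
          exact ⟨⟨hc, hb, Finset.mem_univ _⟩, ha⟩)]
    exact Finset.prod_congr rfl fun l _ => Fintype.card_fin _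
  -- the span condition
  have hspan : ∀ y : (l : ι) → Fin (d l), sg (bs y) ∈ Submodule.span ℝ
      {S : Ten (fun l => Fin (d l)) | ∃ l i h, S = sg (update (v0 l) i h)} := by
    intro y
    have ha : (y i₀ : ℕ) < d i₀ := (y i₀).2
    have hb : (y i₁ : ℕ) < d i₁ := (y i₁).2
    have hξ0 : 0 < ξ := by
      by_contra h
      have h' : ξ = 0 := by omega
      rw [h', mul_zero] at hη
      have h2 : η = 0 := by
        rcases Nat.eq_zero_or_pos η with h3 | h3
        · exact h3
        · have : 0 < d i₁ * η := Nat.mul_pos (by omega) h3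
          omega
      omega
    set s : Finset ℕ := (Finset.range (d i₀ * ξ)).filter
      fun n => n / ξ = (y i₀ : ℕ) ∨ n % d i₁ = (y i₁ : ℕ) with hs
    have hcs : ∏ l ∈ J, d l ≤ s.card := by
      have h7 : ξ + η ≤ s.card + 1 := card_edges (a := d i₀) (b := d i₁) hξ hη ha hb hξ0
      omega
    have h3 := Submodule.mem_map_of_mem (f := Ph J y) (hx s hcs fun l => y l)
    rw [Ph_bs, Submodule.map_span] at h3
    refine Submodule.span_mono ?_ h3
    rintro S ⟨S', ⟨n, hn, rfl⟩, rfl⟩
    have hn' := hn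
    rw [Finset.mem_coe, hs, Finset.mem_filter, Finset.mem_range] at hn'
    obtain ⟨hlt, hor⟩ := hn'
    rcases hor with h | h
    · refine ⟨(⟨n, hlt⟩, fun l => y l), i₁, Pi.single (y i₁) 1, ?_⟩
      refine Ph_sg J y (x n) _ (fun l hl => ?_) (fun l hl => ?_)
      · have hl1 : l ≠ i₁ := fun h' => h1 (h' ▸ hl)
        have hl0 : l ≠ i₀ := fun h' => h0 (h' ▸ hl)
        rw [update_of_ne hl1]
        funext c
        show (if l = i₀ then _ else _) = _
        rw [if_neg hl0, if_neg hl1, dif_pos hl]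
      · by_cases hl1 : l = i₁
        · subst hl1
          rw [update_self]
        · rw [update_of_ne hl1]
          funext c
          show (if l = i₀ then (if (c : ℕ) = n / ξ then (1 : ℝ) else 0) else _) = _
          by_cases hl0 : l = i₀
          · subst hl0
            rw [if_pos rfl, h]
            by_cases hc : c = y l
            · rw [hc, if_pos rfl, Pi.single_eq_same]
            · rw [if_neg (fun h' => hc (Fin.ext h')), Pi.single_eq_of_ne hc]
          · rw [if_neg hl0, if_neg hl1, dif_neg hl, dif_pos (⟨hl, hl0, hl1⟩ : R l)]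
    · refine ⟨(⟨n, hlt⟩, fun l => y l), i₀, Pi.single (y i₀) 1, ?_⟩
      refine Ph_sg J y (x n) _ (fun l hl => ?_) (fun l hl => ?_)
      · have hl1 : l ≠ i₁ := fun h' => h1 (h' ▸ hl)
        have hl0 : l ≠ i₀ := fun h' => h0 (h' ▸ hl)
        rw [update_of_ne hl0]
        funext c
        show (if l = i₀ then _ else _) = _
        rw [if_neg hl0, if_neg hl1, dif_pos hl]
      · by_cases hl0 : l = i₀
        · subst hl0
          rw [update_self]
        · rw [update_of_ne hl0]
          funext c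
          show (if l = i₀ then _ else (if l = i₁ then (if (c : ℕ) = n % d i₁ then (1 : ℝ) else 0)
            else _)) = _
          rw [if_neg hl0]
          by_cases hl1 : l = i₁
          · subst hl1
            rw [if_pos rfl, h]
            by_cases hc : c = y l
            · rw [hc, if_pos rfl, Pi.single_eq_same]
            · rw [if_neg (fun h' => hc (Fin.ext h')), Pi.single_eq_of_ne hc]
          · rw [if_neg hl1, dif_neg hl, dif_pos (⟨hl, hl0, hl1⟩ : R l)]
  -- the sum
  have hT0 : (∑ p : κ, sg (v0 p) : Ten (fun l => Fin (d l))) ∈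
      Sums (fun l => Fin (d l)) (d i₀ * ξ) := by
    refine ⟨v1, ?_⟩
    funext y'
    rw [Finset.sum_apply, Finset.sum_apply, Fintype.sum_prod_type]
    refine Finset.sum_congr rfl fun n _ => ?_
    rw [Finset.sum_eq_single (fun l : {l // R l} => y' l)]
    · show ∏ l, v0 (n, fun l => y' l) l (y' l) = ∏ l, v1 n l (y' l)
      refine Finset.prod_congr rfl fun l _ => ?_
      show (if l = i₀ then _ else if l = i₁ then _ else if h : l ∈ J then _ else
        if h' : R l then _ else _) = (if l = i₀ then _ else if l = i₁ then _ else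
        if h : l ∈ J then _ else _)
      by_cases hl0 : l = i₀
      · rw [if_pos hl0, if_pos hl0]
      · rw [if_neg hl0, if_neg hl0]
        by_cases hl1 : l = i₁
        · rw [if_pos hl1, if_pos hl1]
        · rw [if_neg hl1, if_neg hl1]
          by_cases hl : l ∈ J
          · rw [dif_pos hl, dif_pos hl]
          · rw [dif_neg hl, dif_neg hl, dif_pos (⟨hl, hl0, hl1⟩ : R l), Pi.single_eq_same]
    · intro w _ hw
      obtain ⟨l, hl⟩ := Function.ne_iff.1 hw
      refine Finset.prod_eq_zero (Finset.mem_univ l.1) ?_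
      show (if l.1 = i₀ then _ else if l.1 = i₁ then _ else if h : l.1 ∈ J then _ else
        if h' : R l.1 then (Pi.single (w ⟨l.1, h'⟩) 1 : Fin (d l.1) → ℝ) (y' l.1) else _) =
        (0 : ℝ)
      rw [if_neg l.2.2.1, if_neg l.2.2.2, dif_neg l.2.1, dif_pos l.2]
      exact Pi.single_eq_of_ne (Ne.symm hl) _
    · intro h
      exact absurd (Finset.mem_univ _) h
  have h4 := all_mem_gen v0 hspan hT0 T
  have h5 : Fintype.card κ + d i₀ * ξ =
      d i₀ * ξ * (∏ l ∈ ((Finset.univ.erase i₀).erase i₁) \ J, d l + 1) := by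
    rw [Fintype.card_prod, Fintype.card_fin, hcardW, mul_add, mul_one]
  rwa [h5] at h4

end Pool.Agent.H19.TR
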