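import Pool.Agent.H19.TR.Two
import Pool.Agent.H31.TR.EstTwo

/-!
MP_b12e0e_ag (helper19): formats with two large factors, the bound.
-/

set_option autoImplicit false

open Set Function Module Pool.Agent.H93.TR

namespace Pool.Agent.H19.TR

/-- the hypothesis `htwo` of `glue_two` -/
theorem two_all (ε : ℝ) (hε : 0 < ε) : ∃ K : ℕ, ∀ (n : ℕ) (d : Fin n → ℕ) (i j : Fin n)
    (J : Finset (Fin n)), i ≠ j → i ∉ J → j ∉ J → (∀ l, 2 ≤ d l) → d i ≤ d j →
    K ≤ ∏ l ∈ J, d l → K ≤ ∏ l ∈ ((Finset.univ.erase i).erase j) \ J, d l →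
    (∏ l ∈ J, d l) + 1 ≤ d j → K * (∑ l ∈ (Finset.univ.erase i).erase j, (d l - 1)) ≤ d i + d j →
    ∃ R : ℕ, (R : ℝ) ≤ (1 + ε) * ((∏ l, (d l : ℝ)) / (∑ l, ((d l : ℝ) - 1) + 1)) ∧
      ∀ T : Ten (fun l => Fin (d l)), T ∈ Sums (fun l => Fin (d l)) R := by
  obtain ⟨K, hK⟩ := Pool.Agent.H31.TR.est_two ε hε
  refine ⟨K, fun n d i j J hij hi hj hd hle hM hE hMj hg => ?_⟩
  set S : Finset (Fin n) := (Finset.univ.erase i).erase j with hS
  set M : ℕ := ∏ l ∈ J, d l with hMdef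
  set E : ℕ := ∏ l ∈ S \ J, d l with hEdef
  set g : ℕ := ∑ l ∈ S, (d l - 1) with hgdef
  obtain ⟨ξ, η, h1, h2, h3, h4⟩ := hK (d i) (d j) g M E (by have := hd i; omega) hle hM hE hMj hg
  refine ⟨_, ?_, two_upper d i j hij J hi hj h1 h2 h3⟩
  rw [← hEdef]
  refine h4.trans (le_of_eq ?_)
  have hji : j ∈ Finset.univ.erase i := Finset.mem_erase.2 ⟨Ne.symm hij, Finset.mem_univ _⟩
  have hJS : J ⊆ S := by
    intro l hl
    rw [hS, Finset.mem_erase, Finset.mem_erase]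
    exact ⟨fun h => hj (h ▸ hl), fun h => hi (h ▸ hl), Finset.mem_univ _⟩
  have hprod : (∏ l, (d l : ℝ)) = (d i : ℝ) * (d j) * ((M : ℝ) * E) := by
    rw [← Finset.mul_prod_erase _ _ (Finset.mem_univ i), ← Finset.mul_prod_erase _ _ hji, ← hS,
      ← Finset.prod_sdiff hJS, hMdef, hEdef]
    push_cast
    ring
  have hsum : (∑ l, ((d l : ℝ) - 1)) = ((d i : ℝ) - 1) + ((d j : ℝ) - 1) + g := by
    rw [← Finset.add_sum_erase _ _ (Finset.mem_univ i), ← Finset.add_sum_erase _ _ hji, ← hS,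
      hgdef, Nat.cast_sum, ← add_assoc]
    congr 1
    exact Finset.sum_congr rfl fun l _ => by
      have := hd l
      rw [Nat.cast_sub (by omega), Nat.cast_one]
  rw [hprod, hsum]
  congr 2
  ring

end Pool.Agent.H19.TR
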