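import Pool.Agent.H19.TR.Segre

/-!
MP_b12e0e_ag (helper19): the upper bound for the typical ranks.
-/

set_option autoImplicit false

open Set Function Module

open scoped ContDiff Topology

set_option maxHeartbeats 400000

namespace Pool.Agent.H19.TR

section
variable {ι : Type} [Fintype ι] [DecidableEq ι] {α : ι → Type} [∀ i, Fintype (α i)]
  [∀ i, DecidableEq (α i)]

/-- a slot holds a parameter of a rank one tensor and a tensor; the bit says which one counts -/
def phi (b : Bool) (z : Par α × Ten α) : Ten α := if b = true then sg z.1 else z.2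

omit [DecidableEq ι] [∀ i, Fintype (α i)] [∀ i, DecidableEq (α i)] in
theorem phi_true (z : Par α × Ten α) : phi true z = sg z.1 := rfl

omit [DecidableEq ι] [∀ i, Fintype (α i)] [∀ i, DecidableEq (α i)] in
theorem phi_false (z : Par α × Ten α) : phi false z = z.2 := rfl

omit [∀ i, DecidableEq (α i)] in
theorem continuous_phi (b : Bool) : Continuous (phi b : Par α × Ten α → Ten α) := by
  cases b
  · exact continuous_snd
  · exact contDiff_sg.continuous.comp continuous_fst

theorem dense_phi (b : Bool) (H : Submodule ℝ (Ten α)) (hH : H ≠ ⊤) :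
    Dense {z : Par α × Ten α | phi b z ∉ H} := by
  cases b
  · exact (dense_vec H hH).preimage isOpenMap_snd
  · exact (dense_sg H hH).preimage isOpenMap_fst

/-- all the vectors of the slots lie in the span of `card κ` rank one tensors -/
def Gam {κ : Type} (b : κ → Bool) : Set (κ → Par α × Ten α) :=
  {z | ∃ y : κ → Par α, ∀ l, phi (b l) (z l) ∈ Submodule.span ℝ (range fun k => sg (y k))}

/-- the tangent space -/
noncomputable def Tn (a : Par α) : Submodule ℝ (Ten α) :=
  LinearMap.range (fderiv ℝ (sg : Par α → Ten α) a).toLinearMap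

omit [∀ i, DecidableEq (α i)] in
/-- local solvability -/
theorem exists_near {κ : Type} [Fintype κ] [DecidableEq κ] (a0 : Par α) (S : Finset κ)
    (v : κ → Ten α)
    (h : (Tn a0 ⊔ Submodule.span ℝ (v '' (S : Set κ)) : Submodule ℝ (Ten α)) = ⊤)
    (u : Ten α) : ∃ (a : Par α) (c : κ → ℝ) (ε : ℝ), ε ≠ 0 ∧
      sg a + ∑ l ∈ S, c l • v l = sg a0 + ε • u := by
  let Ψ : Par α × (κ → ℝ) → Ten α := fun x => sg x.1 + ∑ l ∈ S, x.2 l • v l
  let L : (κ → ℝ) →L[ℝ] Ten α :=
    ∑ l ∈ S, (ContinuousLinearMap.proj (R := ℝ) (φ := fun _ : κ => ℝ) l).smulRight (v l)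
  have hL : ∀ c, L c = ∑ l ∈ S, c l • v l := by
    intro c
    simp [L]
  have h1 : HasStrictFDerivAt (sg : Par α → Ten α) (fderiv ℝ sg a0) a0 :=
    contDiff_sg.contDiffAt.hasStrictFDerivAt (by simp)
  have h2 : HasStrictFDerivAt Ψ ((fderiv ℝ (sg : Par α → Ten α) a0).comp
      (ContinuousLinearMap.fst ℝ (Par α) (κ → ℝ)) +
      L.comp (ContinuousLinearMap.snd ℝ (Par α) (κ → ℝ))) (a0, 0) := by
    have h3 : HasStrictFDerivAt (fun x : Par α × (κ → ℝ) => sg x.1)
        ((fderiv ℝ (sg : Par α → Ten α) a0).comp
          (ContinuousLinearMap.fst ℝ (Par α) (κ → ℝ))) (a0, 0) :=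
      HasStrictFDerivAt.comp (a0, (0 : κ → ℝ)) h1 hasStrictFDerivAt_fst
    have h4 : HasStrictFDerivAt (fun x : Par α × (κ → ℝ) => L x.2)
        (L.comp (ContinuousLinearMap.snd ℝ (Par α) (κ → ℝ))) (a0, 0) :=
      (L.comp (ContinuousLinearMap.snd ℝ (Par α) (κ → ℝ))).hasStrictFDerivAt
    have h5 := h3.add h4
    refine h5.congr_of_eventuallyEq (Filter.Eventually.of_forall fun x => ?_)
    show sg x.1 + L x.2 = sg x.1 + _
    rw [hL]
  have h3 : ((fderiv ℝ (sg : Par α → Ten α) a0).comp
      (ContinuousLinearMap.fst ℝ (Par α) (κ → ℝ)) +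
      L.comp (ContinuousLinearMap.snd ℝ (Par α) (κ → ℝ))).range = ⊤ := by
    rw [eq_top_iff, ← h]
    refine sup_le ?_ ?_
    · rintro _ ⟨x, rfl⟩
      refine ⟨(x, 0), ?_⟩
      simp
    · rw [Submodule.span_le]
      rintro _ ⟨l, hl, rfl⟩
      refine ⟨(0, Pi.single l 1), ?_⟩
      have h4 : L (Pi.single l 1) = v l := by
        rw [hL, Finset.sum_eq_single l]
        · simp
        · intro l' _ hne
          simp [Pi.single_eq_of_ne hne]
        · intro h'
          exact absurd hl h'
      simp [h4]
  have h4 := h2.map_nhds_eq_of_surj h3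
  have h5 : range Ψ ∈ 𝓝 (sg a0) := by
    have h6 : Ψ (a0, 0) = sg a0 := by simp [Ψ]
    rw [← h6, ← h4]
    exact Filter.mem_map.2 (Filter.univ_mem' fun x => ⟨x, rfl⟩)
  have h6 : Filter.Tendsto (fun ε : ℝ => sg a0 + ε • u) (𝓝 0) (𝓝 (sg a0)) := by
    have : Continuous fun ε : ℝ => sg a0 + ε • u := by fun_prop
    simpa using this.tendsto 0
  have h7 : ∀ᶠ ε : ℝ in 𝓝 0, sg a0 + ε • u ∈ range Ψ := h6 h5
  have h8 : ∀ᶠ ε : ℝ in 𝓝[≠] 0, sg a0 + ε • u ∈ range Ψ := h7.filter_mono nhdsWithin_le_nhds
  obtain ⟨ε, ⟨x, hx⟩, hε⟩ := (h8.and self_mem_nhdsWithin).exists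
  exact ⟨x.1, x.2, ε, hε, hx⟩

omit [DecidableEq ι] [∀ i, DecidableEq (α i)] in
/-- the coordinates at a base point are nonzero for generic parameters -/
theorem dense_base (m0 : (i : ι) → α i) : Dense {a : Par α | ∏ i, a i (m0 i) ≠ 0} := by
  refine dense_ne_zero _ ?_ (fun _ _ => 1) (by simp)
  refine contDiff_prod fun i _ => ?_
  exact (ContinuousLinearMap.contDiff
    ((ContinuousLinearMap.proj (R := ℝ) (φ := fun _ : α i => ℝ) (m0 i)).comp
      (ContinuousLinearMap.proj (R := ℝ) (φ := fun i => α i → ℝ) i)))

theorem dense_tangent [Nonempty ι] [∀ i, Nonempty (α i)] :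
    Dense {a : Par α | sdim α + 1 ≤ finrank ℝ (Tn a)} := by
  let m0 : (i : ι) → α i := fun i => Classical.arbitrary _
  refine (dense_base m0).mono fun a ha => ?_
  exact finrank_tangent m0 _ fun i => (Finset.prod_ne_zero_iff.1 ha) i (Finset.mem_univ i)

theorem dense_generic {κ : Type} [DecidableEq κ]
    (b : κ → Bool) (l0 : κ) (S : Finset κ) (hl0 : l0 ∉ S) (T : Par α → Submodule ℝ (Ten α))
    (h : Dense {a : Par α | sdim α + 1 ≤ finrank ℝ (T a)}) :
    Dense {z : κ → Par α × Ten α | min (finrank ℝ (Ten α)) (sdim α + 1 + S.card) ≤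
        finrank ℝ (T (z l0).1 ⊔ Submodule.span ℝ ((fun l => phi (b l) (z l)) '' (S : Set κ)) :
          Submodule ℝ (Ten α))} := by
  have h1 : ∀ l (H : Submodule ℝ (Ten α)), H ≠ ⊤ →
      Dense {z : Par α × Ten α | phi (b l) z ∉ H} := fun l H hH => dense_phi (b l) H hH
  have h2 : ∀ l ∈ S, ∀ (z : κ → Par α × Ten α) w, T (update z l w l0).1 = T (z l0).1 := by
    intro l hl z w
    have : l0 ≠ l := by
      rintro rfl
      exact hl0 hl
    simp only [update_of_ne this]
  have h3 : Dense {z : κ → Par α × Ten α | min (finrank ℝ (Ten α)) (sdim α + 1) ≤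
      finrank ℝ (T (z l0).1)} := by
    have h4 : Dense ((fun z : κ → Par α × Ten α => z l0) ⁻¹'
        (Prod.fst ⁻¹' {a : Par α | sdim α + 1 ≤ finrank ℝ (T a)})) :=
      (h.preimage isOpenMap_fst).preimage (isOpenMap_eval l0)
    refine Dense.mono (fun z hz => ?_) h4
    have hz' : sdim α + 1 ≤ finrank ℝ (T (z l0).1) := hz
    exact (min_le_right _ _).trans hz'
  exact dense_step (E := Ten α) (fun l => phi (b l)) h1
    (fun z => T (z l0).1) (sdim α + 1) S h2 h3

attribute [local irreducible] Tn

/-- the density theorem -/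
theorem dense_Gam [Nonempty ι] [∀ i, Nonempty (α i)] {κ : Type} [Fintype κ] [DecidableEq κ]
    (hκ : Fintype.card ((i : ι) → α i) + 1 ≤ sdim α + Fintype.card κ) (k : ℕ) :
    ∀ b : κ → Bool, (Finset.univ.filter fun l => b l = false).card = k →
      (∃ l, b l = true) → Dense (Gam (α := α) b) := by
  induction k with
  | zero =>
    intro b hb _
    have hb' : ∀ l, b l = true := by
      intro l
      by_contra h
      have : l ∈ Finset.univ.filter fun l => b l = false := by simpa using h
      rw [Finset.card_eq_zero.1 hb] at this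
      simp at this
    have : (Gam (α := α) b) = univ := by
      rw [eq_univ_iff_forall]
      intro z
      refine ⟨fun l => (z l).1, fun l => ?_⟩
      rw [hb' l, phi_true]
      exact Submodule.subset_span ⟨l, rfl⟩
    rw [this]
    exact dense_univ
  | succ k ih =>
    rintro b hb ⟨l0, hl0⟩
    obtain ⟨l1, hl1⟩ : ∃ l, b l = false := by
      have : 0 < (Finset.univ.filter fun l => b l = false).card := by omega
      obtain ⟨l, hl⟩ := Finset.card_pos.1 this
      exact ⟨l, by simpa using hl⟩
    have hne : l0 ≠ l1 := by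
      rintro rfl
      rw [hl0] at hl1
      exact absurd hl1 (by decide)
    set b' : κ → Bool := update b l1 true with hb'
    have hb'1 : b' l1 = true := by simp [hb']
    have hb'o : ∀ l, l ≠ l1 → b' l = b l := fun l hl => by simp [hb', update_of_ne hl]
    have hd' : Dense (Gam (α := α) b') := by
      refine ih b' ?_ ⟨l0, by rw [hb'o l0 hne, hl0]⟩
      have h1 : (Finset.univ.filter fun l => b' l = false) =
          (Finset.univ.filter fun l => b l = false).erase l1 := by
        ext l
        simp only [Finset.mem_filter, Finset.mem_univ, true_and, Finset.mem_erase]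
        by_cases h : l = l1
        · subst h
          simp [hb'1]
        · simp [hb'o l h, h]
      rw [h1, Finset.card_erase_of_mem (by simpa using hl1), hb]
      rfl
    set S : Finset κ := (Finset.univ.erase l0).erase l1 with hS
    have hScard : S.card + 2 = Fintype.card κ := by
      rw [hS, Finset.card_erase_of_mem (by simp [hne.symm]), Finset.card_erase_of_mem
        (Finset.mem_univ _), Finset.card_univ]
      have : 2 ≤ Fintype.card κ := by
        have := Finset.card_le_univ ({l0, l1} : Finset κ)
        rwa [Finset.card_pair hne] at this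
      omega
    -- generic position
    have hl0S : l0 ∉ S := by simp [hS]
    have hgen := dense_generic (α := α) b l0 S hl0S Tn dense_tangent
    rw [dense_iff_inter_open]
    intro O hO hOne
    obtain ⟨z, hzO, hz⟩ := hgen.inter_open_nonempty O hO hOne
    have hfin : finrank ℝ (Ten α) = Fintype.card ((i : ι) → α i) := by
      simp [Ten]
    have htop : (Tn (z l0).1 ⊔ Submodule.span ℝ ((fun l => phi (b l) (z l)) '' (S : Set κ)) :
          Submodule ℝ (Ten α)) = ⊤ := by
      apply Submodule.eq_top_of_finrank_eq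
      refine le_antisymm (Submodule.finrank_le _) ?_
      refine le_trans ?_ hz
      rw [hfin]
      refine le_min le_rfl ?_
      omega
    obtain ⟨a, c, ε, hε, hac⟩ := exists_near (z l0).1 S (fun l => phi (b l) (z l)) htop (z l1).2
    -- the correction map
    let Θ : (κ → Par α × Ten α) → (κ → Par α × Ten α) := fun w =>
      update w l1 ((z l1).1, ε⁻¹ • (sg (w l1).1 + ∑ l ∈ S, c l • phi (b l) (w l) -
        sg (w l0).1))
    have hΘc : Continuous Θ := by
      have h1 : Continuous fun w : κ → Par α × Ten α => ((z l1).1,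
          ε⁻¹ • (sg (w l1).1 + ∑ l ∈ S, c l • phi (b l) (w l) - sg (w l0).1)) := by
        have h2 : Continuous fun w : κ → Par α × Ten α =>
            sg (w l1).1 + ∑ l ∈ S, c l • phi (b l) (w l) - sg (w l0).1 := by
          refine Continuous.sub (Continuous.add ?_ ?_) ?_
          · exact contDiff_sg.continuous.comp (continuous_fst.comp (continuous_apply l1))
          · refine continuous_finsetSum _ fun l _ => ?_
            exact Continuous.const_smul ((continuous_phi (b l)).comp (continuous_apply l)) (c l)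
          · exact contDiff_sg.continuous.comp (continuous_fst.comp (continuous_apply l0))
        exact continuous_const.prodMk (Continuous.const_smul h2 ε⁻¹)
      exact continuous_id.update l1 h1
    have hΘz : Θ (update z l1 (a, (z l1).2)) = z := by
      funext l
      by_cases hl : l = l1
      · subst hl
        simp only [Θ, update_self, update_of_ne hne]
        have h1 : ∑ l' ∈ S, c l' • phi (b l') (update z l (a, (z l).2) l') =
            ∑ l' ∈ S, c l' • phi (b l') (z l') := by
          refine Finset.sum_congr rfl fun l' hl' => ?_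
          have : l' ≠ l := by
            rintro rfl
            simp [hS] at hl'
          rw [update_of_ne this]
        rw [h1, hac, add_sub_cancel_left, smul_smul, inv_mul_cancel₀ hε, one_smul]
      · simp only [Θ, update_of_ne hl]
    obtain ⟨w, hwO, y, hy⟩ := hd'.inter_open_nonempty _ (hO.preimage hΘc)
      ⟨update z l1 (a, (z l1).2), by
        show Θ _ ∈ O
        rw [hΘz]
        exact hzO⟩
    refine ⟨Θ w, hwO, y, fun l => ?_⟩
    by_cases hl : l = l1
    · subst hl
      rw [hl1, phi_false]
      simp only [Θ, update_self]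
      refine Submodule.smul_mem _ _ (Submodule.sub_mem _ (Submodule.add_mem _ ?_ ?_) ?_)
      · have := hy l
        rwa [hb'1, phi_true] at this
      · refine Submodule.sum_mem _ fun l' hl' => Submodule.smul_mem _ _ ?_
        have h1 : l' ≠ l := by
          rintro rfl
          simp [hS] at hl'
        have := hy l'
        rwa [hb'o l' h1] at this
      · have := hy l0
        rwa [hb'o l0 hne, hl0, phi_true] at this
    · simp only [Θ, update_of_ne hl]
      have := hy l
      rwa [hb'o l hl] at this

/-- tensors with one more factor `β`, given by their slices: all slices are in the span of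
`r` rank one tensors -/
def RLE (α : ι → Type) (β : Type) (r : ℕ) : Set (β → Ten α) :=
  {T | ∃ y : Fin r → Par α, ∀ j, T j ∈ Submodule.span ℝ (range fun k => sg (y k))}

theorem dense_RLE [Nonempty ι] [∀ i, Nonempty (α i)] {β : Type} [Fintype β] (r : ℕ)
    (h1 : Fintype.card ((i : ι) → α i) + 1 ≤ sdim α + r) (h2 : Fintype.card β + 1 ≤ r) :
    Dense (RLE α β r) := by
  classical
  obtain ⟨c, rfl⟩ : ∃ c, r = Fintype.card β + (c + 1) := ⟨r - (Fintype.card β + 1), by omega⟩
  let κ := β ⊕ Fin (c + 1)
  have hcard : Fintype.card κ = Fintype.card β + (c + 1) := by simp [κ]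
  let b : κ → Bool := fun l => l.elim (fun _ => false) (fun _ => true)
  have hd : Dense (Gam (α := α) b) := by
    refine dense_Gam (by rw [hcard]; exact h1) _ b rfl ⟨Sum.inr 0, rfl⟩
  let f : (κ → Par α × Ten α) → (β → Ten α) := fun z j => (z (Sum.inl j)).2
  have hfc : Continuous f := by
    refine continuous_pi fun j => ?_
    exact continuous_snd.comp (continuous_apply _)
  have hfs : Surjective f := by
    intro T
    exact ⟨fun l => (0, l.elim T (fun _ => 0)), rfl⟩
  refine (hfs.denseRange.dense_image hfc hd).mono ?_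
  rintro _ ⟨z, ⟨y, hy⟩, rfl⟩
  let e : Fin (Fintype.card β + (c + 1)) ≃ κ := (Fintype.equivFinOfCardEq hcard).symm
  refine ⟨fun k => y (e k), fun j => ?_⟩
  have h3 : (range fun k => sg (y (e k))) = range fun k => sg (y k) :=
    e.surjective.range_comp (fun k => sg (y k))
  rw [h3]
  exact hy (Sum.inl j)

end

end Pool.Agent.H19.TR
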